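import Mathlib

set_option autoImplicit false

namespace Pool.Agent.Work.MP_20d0cc_lc

/-- `G` is highly computable (the list of neighbours is computable) and all degrees are at most
`Δ`. -/
def HighlyComputable (G : SimpleGraph ℕ) (Δ : ℕ) : Prop :=
  (∃ nbrs : ℕ → List ℕ, Computable nbrs ∧ ∀ x y : ℕ, G.Adj x y ↔ y ∈ nbrs x) ∧
    ∀ (x : ℕ) (s : Finset ℕ), (∀ y ∈ s, G.Adj x y) → s.card ≤ Δ

/-- `c` is a proper edge colouring of `G` with the `k` colours `0, …, k - 1`. -/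
def IsColouring (G : SimpleGraph ℕ) (k : ℕ) (c : ℕ → ℕ → ℕ) : Prop :=
  (∀ x y : ℕ, G.Adj x y → c x y = c y x ∧ c x y < k) ∧
    ∀ x y z : ℕ, G.Adj x y → G.Adj x z → y ≠ z → c x y ≠ c x z

/-- `c` gives the edge `x y` the colour `a` whenever `(x, y, a)` is in `p` and `x y` is an edge. -/
def Extends (G : SimpleGraph ℕ) (p : List (ℕ × ℕ × ℕ)) (c : ℕ → ℕ → ℕ) : Prop :=
  ∀ t ∈ p, G.Adj t.1 t.2.1 → c t.1 t.2.1 = t.2.2

end Pool.Agent.Work.MP_20d0cc_lc
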