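import Pool.Agent.Work.MP_20d0cc_lc.Comp
import Pool.Agent.Work.MP_20d0cc_lc.HDefs

-- merged part: Pool.Agent.Work.MP_20d0cc_lc.Hedge
section
/-! Extendability of finite precolourings is decidable. -/

set_option autoImplicit false

namespace Pool.Agent.Work.MP_20d0cc_lc

open Classical

/-- a proper edge colouring with the colours `0, …, Δ`. -/
def IsCol (G : SimpleGraph ℕ) (Δ : ℕ) (c : ℕ → ℕ → ℕ) : Prop :=
  (∀ x y : ℕ, G.Adj x y → c x y = c y x ∧ c x y ≤ Δ) ∧
    ∀ x y z : ℕ, G.Adj x y → G.Adj x z → y ≠ z → c x y ≠ c x z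

theorem isCol_iff {G : SimpleGraph ℕ} {Δ : ℕ} {c : ℕ → ℕ → ℕ} :
    IsColouring G (Δ + 1) c ↔ IsCol G Δ c := by
  simp only [IsColouring, IsCol, Nat.lt_succ_iff]

/-- a bound for the codes of lists of length `m` with entries at most `Δ`. -/
def bd (Δ : ℕ) : ℕ → ℕ
  | 0 => 0
  | m + 1 => Nat.pair Δ (bd Δ m) + 1

theorem bd_prim (Δ : ℕ) : Primrec (bd Δ) := by
  have := Primrec.nat_rec₁ (f := fun (_ : ℕ) (b : ℕ) => Nat.pair Δ b + 1) 0
    (Primrec.succ.comp (Primrec₂.natPair.comp (Primrec.const Δ) Primrec.snd)).to₂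
  refine this.of_eq fun n => ?_
  induction n with
  | zero => rfl
  | succ n ih => simp only [bd] at ih ⊢; rw [ih]

theorem pair_mono {a a' b b' : ℕ} (h : a ≤ a') (h' : b ≤ b') : Nat.pair a b ≤ Nat.pair a' b' := by
  have h1 : Nat.pair a b ≤ Nat.pair a' b := by
    rcases h.eq_or_lt with rfl | h
    · exact le_rfl
    · exact (Nat.pair_lt_pair_left b h).le
  have h2 : Nat.pair a' b ≤ Nat.pair a' b' := by
    rcases h'.eq_or_lt with rfl | h'
    · exact le_rfl
    · exact (Nat.pair_lt_pair_right a' h').le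
  exact h1.trans h2

theorem encode_le_bd (Δ : ℕ) (l : List ℕ) (h : ∀ a ∈ l, a ≤ Δ) :
    Encodable.encode l ≤ bd Δ l.length := by
  induction l with
  | nil => exact le_rfl
  | cons a l ih =>
    rw [Encodable.encode_list_cons]
    exact Nat.succ_le_succ (pair_mono (h a (by simp)) (ih fun b hb => h b (by simp [hb])))

theorem exists_code_le (Δ : ℕ) (f : ℕ → ℕ → ℕ) (hf : ∀ x y, f x y ≤ Δ) (N : ℕ) :
    ∃ k ≤ bd Δ (N * N), ∀ x < N, ∀ y < N, cd k x y = f x y := by
  refine ⟨Encodable.encode ((List.range (N * N)).map fun m => f m.unpair.1 m.unpair.2), ?_, ?_⟩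
  · refine (encode_le_bd Δ _ ?_).trans (by simp)
    intro a ha
    obtain ⟨m, -, rfl⟩ := List.mem_map.1 ha
    exact hf _ _
  intro x hx y hy
  have h1 : Nat.pair x y < N * N := by
    rw [← pow_two]
    refine (Nat.pair_lt_max_add_one_sq x y).trans_le (Nat.pow_le_pow_left ?_ 2)
    rcases le_total x y with h | h
    · rw [max_eq_right h]; omega
    · rw [max_eq_left h]; omega
  unfold cd
  rw [Denumerable.ofNat_encode]
  simp [List.getD_eq_getElem?_getD, h1]

theorem lt_encode_triple {p : List (ℕ × ℕ × ℕ)} {t : ℕ × ℕ × ℕ} (h : t ∈ p) :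
    t.1 < Encodable.encode p ∧ t.2.1 < Encodable.encode p := by
  induction p with
  | nil => cases h
  | cons a l ih =>
    rw [Encodable.encode_list_cons]
    rcases List.mem_cons.1 h with rfl | h
    · obtain ⟨x, y, a⟩ := t
      have h1 := Nat.left_le_pair (Encodable.encode (x, y, a)) (Encodable.encode l)
      have h2 : x ≤ Encodable.encode (x, y, a) := Nat.left_le_pair _ _
      have h3 : y ≤ Encodable.encode (x, y, a) :=
        (Nat.left_le_pair y a).trans (Nat.right_le_pair x _)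
      exact ⟨Nat.lt_succ_of_le (h2.trans h1), Nat.lt_succ_of_le (h3.trans h1)⟩
    · have h1 := Nat.right_le_pair (Encodable.encode a) (Encodable.encode l)
      exact ⟨Nat.lt_succ_of_le ((ih h).1.le.trans h1), Nat.lt_succ_of_le ((ih h).2.le.trans h1)⟩

/-- the table coded by `k` respects the precolouring, the graph being given by a table. -/
def MatchT (q : List (List ℕ) × List (ℕ × ℕ × ℕ) × ℕ) : Prop :=
  ∀ t ∈ q.2.1, ∀ y ∈ q.1.getD t.1 [], ¬ y = t.2.1 ∨ cd q.2.2 t.1 t.2.1 = t.2.2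

theorem matchT_prim : PrimrecPred MatchT := by
  have h0 : PrimrecRel fun (y : ℕ)
      (b : (ℕ × ℕ × ℕ) × (List (List ℕ) × List (ℕ × ℕ × ℕ) × ℕ)) =>
      ¬ y = b.1.2.1 ∨ cd b.2.2.2 b.1.1 b.1.2.1 = b.1.2.2 := by
    have ht : Primrec fun r : ℕ × ((ℕ × ℕ × ℕ) × (List (List ℕ) × List (ℕ × ℕ × ℕ) × ℕ)) =>
        r.2.1 := Primrec.fst.comp Primrec.snd
    exact (Primrec.eq.comp Primrec.fst (Primrec.fst.comp (Primrec.snd.comp ht))).not.or
      (Primrec.eq.comp
        (cd_prim (Primrec.snd.comp (Primrec.snd.comp (Primrec.snd.comp Primrec.snd)))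
          (Primrec.fst.comp ht) (Primrec.fst.comp (Primrec.snd.comp ht)))
        (Primrec.snd.comp (Primrec.snd.comp ht)))
  have h1 : PrimrecRel fun (t : ℕ × ℕ × ℕ) (q : List (List ℕ) × List (ℕ × ℕ × ℕ) × ℕ) =>
      ∀ y ∈ q.1.getD t.1 [], ¬ y = t.2.1 ∨ cd q.2.2 t.1 t.2.1 = t.2.2 :=
    h0.forall_mem_list.comp
      ((Primrec.list_getD []).comp (Primrec.fst.comp Primrec.snd) (Primrec.fst.comp Primrec.fst))
      Primrec.id
  exact h1.forall_mem_list.comp (Primrec.fst.comp Primrec.snd) Primrec.id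

theorem matchT_iff {G : SimpleGraph ℕ} {nbrs : ℕ → List ℕ} (hG : ∀ x y, G.Adj x y ↔ y ∈ nbrs x)
    {N : ℕ} {p : List (ℕ × ℕ × ℕ)} (hN : Encodable.encode p ≤ N) (k : ℕ) :
    MatchT (tbl nbrs N, p, k) ↔ Extends G p (cd k) := by
  refine forall₂_congr fun t ht => ?_
  simp only [tbl_getD nbrs ((lt_encode_triple ht).1.trans_le hN), hG]
  constructor
  · intro h h1
    exact (h _ h1).resolve_left (fun e => e rfl)
  · intro h y hy
    by_cases e : y = t.2.1
    · exact Or.inr (h (e ▸ hy))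
    · exact Or.inl e

/-- continuation of a good table to a computable colouring, uniformly in the table. -/
theorem exists_cont (G : SimpleGraph ℕ) (nbrs : ℕ → List ℕ) (hnb : Computable nbrs)
    (hG : ∀ x y : ℕ, G.Adj x y ↔ y ∈ nbrs x) (Δ : ℕ)
    (hΔ : ∀ (x : ℕ) (s : Finset ℕ), (∀ y ∈ s, G.Adj x y) → s.card ≤ Δ) :
    ∃ C : ℕ × ℕ → ℕ × ℕ → ℕ, Computable₂ C ∧ ∀ n k, Good G Δ (stage nbrs Δ n) k →
      IsCol G Δ (fun x y => C (n, k) (x, y)) ∧ ∀ x < n, ∀ y < n, C (n, k) (x, y) = cd k x y := by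
  let P : ℕ × ℕ → ℕ → Prop := fun p k' =>
    ¬ Good G Δ (stage nbrs Δ p.1) p.2 ∨
      (Good G Δ (stage nbrs Δ (p.1 + 1)) k' ∧ Agree (p.1, p.2, k'))
  have hex : ∀ p, ∃ k', P p k' := by
    intro p
    by_cases h : Good G Δ (stage nbrs Δ p.1) p.2
    · obtain ⟨k', hk'⟩ := exists_next hG hΔ p.1 p.2 (stage nbrs Δ (p.1 + 1))
        ((Nat.le_succ _).trans (le_stage _ _ _)) h
      exact ⟨k', Or.inr hk'⟩
    · exact ⟨0, Or.inl h⟩
  have hQ : PrimrecPred fun q : (List (List ℕ) × ℕ × ℕ) × (List (List ℕ) × ℕ × ℕ) × (ℕ × ℕ × ℕ) =>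
      ¬ GoodT Δ q.1 ∨ (GoodT Δ q.2.1 ∧ Agree q.2.2) :=
    ((goodT_prim Δ).comp Primrec.fst).not.or
      (((goodT_prim Δ).comp (Primrec.fst.comp Primrec.snd)).and
        (agree_prim.comp (Primrec.snd.comp Primrec.snd)))
  have hn : Computable fun r : (ℕ × ℕ) × ℕ => r.1.1 := Computable.fst.comp Computable.fst
  have hk : Computable fun r : (ℕ × ℕ) × ℕ => r.1.2 := Computable.snd.comp Computable.fst
  have hs0 : Computable fun r : (ℕ × ℕ) × ℕ => stage nbrs Δ r.1.1 := (stage_comp hnb Δ).comp hn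
  have hs1 : Computable fun r : (ℕ × ℕ) × ℕ => stage nbrs Δ (r.1.1 + 1) :=
    (stage_comp hnb Δ).comp (Computable.succ.comp hn)
  have hf : Computable fun r : (ℕ × ℕ) × ℕ =>
      ((tbl nbrs (stage nbrs Δ r.1.1), stage nbrs Δ r.1.1, r.1.2),
        (tbl nbrs (stage nbrs Δ (r.1.1 + 1)), stage nbrs Δ (r.1.1 + 1), r.2),
        (r.1.1, r.1.2, r.2)) :=
    (((tbl_comp hnb).comp hs0).pair (hs0.pair hk)).pair
      ((((tbl_comp hnb).comp hs1).pair (hs1.pair Computable.snd)).pair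
        (hn.pair (hk.pair Computable.snd)))
  have hP : ComputablePred fun r : (ℕ × ℕ) × ℕ => P r.1 r.2 := by
    refine (Computable.computablePred (hQ.computablePred.decide.comp hf)).of_eq fun r => ?_
    simp only [P, goodT_iff hG]
  have hstep : Computable fun p => Nat.find (hex p) := Computable.find hP hex
  let seq : (ℕ × ℕ) × ℕ → ℕ := fun r =>
    Nat.rec (motive := fun _ => ℕ) r.1.2 (fun m IH => Nat.find (hex (r.1.1 + m, IH))) r.2
  have hseq : Computable seq :=
    Computable.nat_rec (f := fun r : (ℕ × ℕ) × ℕ => r.2) (g := fun r : (ℕ × ℕ) × ℕ => r.1.2)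
      (h := fun (r : (ℕ × ℕ) × ℕ) (p : ℕ × ℕ) => Nat.find (hex (r.1.1 + p.1, p.2)))
      Computable.snd hk
      (hstep.comp ((Primrec.nat_add.to_comp.comp (hn.comp Computable.fst)
        (Computable.fst.comp Computable.snd)).pair (Computable.snd.comp Computable.snd))).to₂
  refine ⟨fun a e => cd (seq (a, e.1 + e.2 + 1)) e.1 e.2, ?_, fun n k h0 => ?_⟩
  · have h1 : Primrec fun q : ℕ × ℕ × ℕ => cd q.1 q.2.1 q.2.2 :=
      cd_prim Primrec.fst (Primrec.fst.comp Primrec.snd) (Primrec.snd.comp Primrec.snd)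
    have h2 : Computable fun p : (ℕ × ℕ) × ℕ × ℕ => (seq (p.1, p.2.1 + p.2.2 + 1), p.2) :=
      (hseq.comp (Computable.fst.pair (Computable.succ.comp
        (Primrec.nat_add.to_comp.comp (Computable.fst.comp Computable.snd)
          (Computable.snd.comp Computable.snd))))).pair Computable.snd
    exact h1.to_comp.comp h2
  let s : ℕ → ℕ := fun m => seq ((n, k), m)
  have hsucc : ∀ m, P (n + m, s m) (s (m + 1)) := fun m => Nat.find_spec (hex (n + m, s m))
  have hgood : ∀ m, Good G Δ (stage nbrs Δ (n + m)) (s m) := by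
    intro m
    induction m with
    | zero => exact h0
    | succ m ih => exact ((hsucc m).resolve_left (fun h => h ih)).1
  have hstab : ∀ x y l m, x < n + l → y < n + l → l ≤ m → cd (s l) x y = cd (s m) x y := by
    intro x y l m hx hy hm
    induction m, hm using Nat.le_induction with
    | base => rfl
    | succ m hm ih =>
      rw [ih]
      exact ((hsucc m).resolve_left (fun h => h (hgood m))).2 x (List.mem_range.2 (by omega)) y
        (List.mem_range.2 (by omega))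
  refine ⟨⟨?_, ?_⟩, fun x hx y hy => (hstab x y 0 (x + y + 1) hx hy (Nat.zero_le _)).symm⟩
  · intro x y hxy
    have h1 := le_stage nbrs Δ (n + (x + y + 1))
    have h2 := (hgood (x + y + 1) x (by omega) y (by omega) hxy).1
    refine ⟨?_, h2.2⟩
    show cd (s (x + y + 1)) x y = cd (s (y + x + 1)) y x
    rw [h2.1, Nat.add_comm y x]
  · intro x y z hxy hxz hyz
    have h1 := le_stage nbrs Δ (n + (x + y + z + 1))
    show cd (s (x + y + 1)) x y ≠ cd (s (x + z + 1)) x z
    rw [hstab x y (x + y + 1) (x + y + z + 1) (by omega) (by omega) (by omega),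
      hstab x z (x + z + 1) (x + y + z + 1) (by omega) (by omega) (by omega)]
    exact (hgood (x + y + z + 1) x (by omega) y (by omega) hxy).2 z (by omega) hxz hyz

/-- `k` is a good table that respects the precolouring. -/
def RT (Δ : ℕ) (r : (List (List ℕ) × ℕ × List (ℕ × ℕ × ℕ)) × ℕ) : Prop :=
  GoodT Δ (r.1.1, r.1.2.1, r.2) ∧ MatchT (r.1.1, r.1.2.2, r.2)

theorem rT_prim (Δ : ℕ) : PrimrecPred (RT Δ) := by
  have h1 : Primrec fun r : (List (List ℕ) × ℕ × List (ℕ × ℕ × ℕ)) × ℕ =>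
      (r.1.1, r.1.2.1, r.2) := (Primrec.fst.comp Primrec.fst).pair
    ((Primrec.fst.comp (Primrec.snd.comp Primrec.fst)).pair Primrec.snd)
  have h2 : Primrec fun r : (List (List ℕ) × ℕ × List (ℕ × ℕ × ℕ)) × ℕ =>
      (r.1.1, r.1.2.2, r.2) := (Primrec.fst.comp Primrec.fst).pair
    ((Primrec.snd.comp (Primrec.snd.comp Primrec.fst)).pair Primrec.snd)
  exact ((goodT_prim Δ).comp h1).and (matchT_prim.comp h2)

/-- there is such a table below the bound. -/
def ET (Δ : ℕ) (q : List (List ℕ) × ℕ × List (ℕ × ℕ × ℕ)) : Prop :=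
  ∃ k ∈ List.range (bd Δ (q.2.1 * q.2.1) + 1), RT Δ (q, k)

theorem eT_prim (Δ : ℕ) : PrimrecPred (ET Δ) := by
  have h0 : PrimrecRel fun (k : ℕ) (q : List (List ℕ) × ℕ × List (ℕ × ℕ × ℕ)) => RT Δ (q, k) :=
    (rT_prim Δ).comp (Primrec.snd.pair Primrec.fst)
  have h1 : Primrec fun q : List (List ℕ) × ℕ × List (ℕ × ℕ × ℕ) =>
      List.range (bd Δ (q.2.1 * q.2.1) + 1) :=
    Primrec.list_range.comp (Primrec.succ.comp ((bd_prim Δ).comp (Primrec.nat_mul.comp
      (Primrec.fst.comp Primrec.snd) (Primrec.fst.comp Primrec.snd))))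
  exact h0.exists_mem_list.comp h1 Primrec.id

theorem fT_prim (Δ : ℕ) : PrimrecPred fun r : (List (List ℕ) × ℕ × List (ℕ × ℕ × ℕ)) × ℕ =>
    ¬ ET Δ r.1 ∨ RT Δ r := ((eT_prim Δ).comp Primrec.fst).not.or (rT_prim Δ)

theorem decidable_ext (G : SimpleGraph ℕ) (nbrs : ℕ → List ℕ) (hnb : Computable nbrs)
    (hG : ∀ x y : ℕ, G.Adj x y ↔ y ∈ nbrs x) (Δ : ℕ)
    (hΔ : ∀ (x : ℕ) (s : Finset ℕ), (∀ y ∈ s, G.Adj x y) → s.card ≤ Δ) :
    ∃ (D : List (ℕ × ℕ × ℕ) → Bool) (C : List (ℕ × ℕ × ℕ) → ℕ → ℕ → ℕ), Computable D ∧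
      Computable (fun q : List (ℕ × ℕ × ℕ) × ℕ × ℕ => C q.1 q.2.1 q.2.2) ∧
      ∀ p, (D p = true → IsCol G Δ (C p) ∧ Extends G p (C p)) ∧
        (D p = false → ¬ ∃ c, IsCol G Δ c ∧ Extends G p c) := by
  obtain ⟨C, hC, hC'⟩ := exists_cont G nbrs hnb hG Δ hΔ
  let N : List (ℕ × ℕ × ℕ) → ℕ := fun p => stage nbrs Δ (Encodable.encode p)
  have hN : Computable N := (stage_comp hnb Δ).comp Computable.encode
  have hNp : ∀ p, Encodable.encode p ≤ N p := fun p => le_stage _ _ _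
  let q : List (ℕ × ℕ × ℕ) → List (List ℕ) × ℕ × List (ℕ × ℕ × ℕ) :=
    fun p => (tbl nbrs (N p), N p, p)
  have hq : Computable q := ((tbl_comp hnb).comp hN).pair (hN.pair Computable.id)
  have hex : ∀ p, ∃ k, ¬ ET Δ (q p) ∨ RT Δ (q p, k) := by
    intro p
    by_cases h : ET Δ (q p)
    · obtain ⟨k, -, hk⟩ := h
      exact ⟨k, Or.inr hk⟩
    · exact ⟨0, Or.inl h⟩
  have hq2 : Computable fun r : List (ℕ × ℕ × ℕ) × ℕ => (q r.1, r.2) :=
    (hq.comp Computable.fst).pair Computable.snd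
  have hP : ComputablePred fun r : List (ℕ × ℕ × ℕ) × ℕ => ¬ ET Δ (q r.1) ∨ RT Δ (q r.1, r.2) :=
    (Computable.computablePred ((fT_prim Δ).computablePred.decide.comp hq2)).of_eq
      fun r => Iff.rfl
  have hk : Computable fun p => Nat.find (hex p) := Computable.find hP hex
  have hRiff : ∀ p k, RT Δ (q p, k) ↔ Good G Δ (N p) k ∧ Extends G p (cd k) := fun p k =>
    and_congr (goodT_iff hG _ _ _) (matchT_iff hG (hNp p) k)
  have hD : Computable fun p => decide (ET Δ (q p)) := (eT_prim Δ).computablePred.decide.comp hq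
  have hk2 : Computable fun r : List (ℕ × ℕ × ℕ) × ℕ × ℕ =>
      (Encodable.encode r.1, Nat.find (hex r.1)) :=
    (Computable.encode.comp Computable.fst).pair (hk.comp Computable.fst)
  have hC2 : Computable fun r : List (ℕ × ℕ × ℕ) × ℕ × ℕ =>
      C (Encodable.encode r.1, Nat.find (hex r.1)) r.2 := hC.comp hk2 Computable.snd
  refine ⟨fun p => decide (ET Δ (q p)),
    fun p x y => C (Encodable.encode p, Nat.find (hex p)) (x, y), hD, hC2, fun p => ⟨?_, ?_⟩⟩
  · intro h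
    have h1 := (hRiff p _).1 ((Nat.find_spec (hex p)).resolve_left (fun e => e (of_decide_eq_true h)))
    obtain ⟨h2, h3⟩ := hC' _ _ h1.1
    exact ⟨h2, fun t ht ha =>
      (h3 _ (lt_encode_triple ht).1 _ (lt_encode_triple ht).2).trans (h1.2 t ht ha)⟩
  · rintro h ⟨c, hc, hp⟩
    obtain ⟨k, hk1, hk2⟩ := exists_code_le Δ (fun x y => min (c x y) Δ)
      (fun _ _ => min_le_right _ _) (N p)
    have hv : ∀ x < N p, ∀ y < N p, G.Adj x y → cd k x y = c x y := fun x hx y hy a =>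
      (hk2 x hx y hy).trans (min_eq_left (hc.1 x y a).2)
    refine of_decide_eq_false h ⟨k, List.mem_range.2 (Nat.lt_succ_of_le hk1),
      (hRiff p k).2 ⟨fun x hx y hy a => ⟨?_, fun z hz a' e => ?_⟩, fun t ht a => ?_⟩⟩
    · rw [hv x hx y hy a, hv y hy x hx a.symm]
      exact hc.1 x y a
    · rw [hv x hx y hy a, hv x hx z hz a']
      exact hc.2 x y z a a' e
    · rw [hv _ ((lt_encode_triple ht).1.trans_le (hNp p)) _
        ((lt_encode_triple ht).2.trans_le (hNp p)) a]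
      exact hp t ht a

end Pool.Agent.Work.MP_20d0cc_lc
end

-- merged part: Pool.Agent.Work.MP_20d0cc_lc.Neg
section
/-! With as many colours as the maximum degree, extendability is undecidable. -/

set_option autoImplicit false

namespace Pool.Agent.Work.MP_20d0cc_lc

open Classical Nat.Partrec

/-- machine `e` has not stopped within `s` steps. -/
def alive (e s : ℕ) : Prop := Code.evaln s (Denumerable.ofNat Code e) 0 = Option.none

theorem alive_prim : PrimrecRel alive :=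
  Primrec.eq.comp (Code.primrec_evaln.comp ((Primrec.snd.pair
    ((Primrec.ofNat Code).comp Primrec.fst)).pair (Primrec.const 0))) (Primrec.const Option.none)

/-- vertices: machine, stage, chain, side, index. -/
abbrev T : Type := ℕ × ℕ × ℕ × ℕ × ℕ

/-- edges from a left vertex `u` to a right vertex `v`. -/
def A0 (k : ℕ) (u v : T) : Prop :=
  u.1 = v.1 ∧ u.2.2.2.1 = 0 ∧ v.2.2.2.1 = 1 ∧ v.2.2.1 < 2 ∧ alive v.1 v.2.1 ∧
    ((u.2.1 = v.2.1 ∧ u.2.2.1 = v.2.2.1 ∧ u.2.2.2.2 < k ∧ v.2.2.2.2 < k ∧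
        ¬ (u.2.2.2.2 = 0 ∧ v.2.2.2.2 = 0)) ∨
      (u.2.1 = v.2.1 + 1 ∧ u.2.2.2.2 = 0 ∧ v.2.2.2.2 = 0 ∧
        ((alive u.1 u.2.1 ∧ u.2.2.1 = v.2.2.1) ∨ (¬ alive u.1 u.2.1 ∧ u.2.2.1 = 0))))

theorem a0_prim (k : ℕ) : PrimrecRel (A0 k) := by
  have p1 : Primrec fun u : T => u.1 := Primrec.fst
  have p2 : Primrec fun u : T => u.2.1 := Primrec.fst.comp Primrec.snd
  have p3 : Primrec fun u : T => u.2.2.1 := Primrec.fst.comp (Primrec.snd.comp Primrec.snd)
  have p4 : Primrec fun u : T => u.2.2.2.1 :=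
    Primrec.fst.comp (Primrec.snd.comp (Primrec.snd.comp Primrec.snd))
  have p5 : Primrec fun u : T => u.2.2.2.2 :=
    Primrec.snd.comp (Primrec.snd.comp (Primrec.snd.comp Primrec.snd))
  have u1 : Primrec fun r : T × T => r.1.1 := p1.comp Primrec.fst
  have u2 : Primrec fun r : T × T => r.1.2.1 := p2.comp Primrec.fst
  have u3 : Primrec fun r : T × T => r.1.2.2.1 := p3.comp Primrec.fst
  have u4 : Primrec fun r : T × T => r.1.2.2.2.1 := p4.comp Primrec.fst
  have u5 : Primrec fun r : T × T => r.1.2.2.2.2 := p5.comp Primrec.fst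
  have v1 : Primrec fun r : T × T => r.2.1 := p1.comp Primrec.snd
  have v2 : Primrec fun r : T × T => r.2.2.1 := p2.comp Primrec.snd
  have v3 : Primrec fun r : T × T => r.2.2.2.1 := p3.comp Primrec.snd
  have v4 : Primrec fun r : T × T => r.2.2.2.2.1 := p4.comp Primrec.snd
  have v5 : Primrec fun r : T × T => r.2.2.2.2.2 := p5.comp Primrec.snd
  have c : ∀ n : ℕ, Primrec fun _ : T × T => n := fun n => Primrec.const n
  exact (Primrec.eq.comp u1 v1).and ((Primrec.eq.comp u4 (c 0)).and ((Primrec.eq.comp v4 (c 1)).and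
    ((Primrec.nat_lt.comp v3 (c 2)).and ((alive_prim.comp v1 v2).and
      (((Primrec.eq.comp u2 v2).and ((Primrec.eq.comp u3 v3).and ((Primrec.nat_lt.comp u5 (c k)).and
        ((Primrec.nat_lt.comp v5 (c k)).and
          ((Primrec.eq.comp u5 (c 0)).and (Primrec.eq.comp v5 (c 0))).not)))).or
      ((Primrec.eq.comp u2 (Primrec.succ.comp v2)).and ((Primrec.eq.comp u5 (c 0)).and
        ((Primrec.eq.comp v5 (c 0)).and
          (((alive_prim.comp u1 u2).and (Primrec.eq.comp u3 v3)).or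
            ((alive_prim.comp u1 u2).not.and (Primrec.eq.comp u3 (c 0))))))))))))

/-- the vertex with code `x`. -/
def dec (x : ℕ) : T := Denumerable.ofNat T x

/-- the code of a vertex. -/
def enc (u : T) : ℕ := Encodable.encode u

theorem dec_enc (u : T) : dec (enc u) = u := Denumerable.ofNat_encode u

theorem enc_dec (x : ℕ) : enc (dec x) = x := Denumerable.encode_ofNat x

/-- the graph. -/
def GG (k : ℕ) : SimpleGraph ℕ where
  Adj x y := A0 k (dec x) (dec y) ∨ A0 k (dec y) (dec x)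
  symm := ⟨fun _ _ h => h.symm⟩
  loopless := ⟨fun x h => by
    rcases h with h | h <;> exact absurd (h.2.1.symm.trans h.2.2.1) (by decide)⟩

theorem enc_le {k : ℕ} {u v : T} (h : A0 k u v ∨ A0 k v u) :
    enc v ≤ enc (u.1, u.2.1 + 1, 1, 1, k) := by
  obtain ⟨e, s, t, d, i⟩ := u
  obtain ⟨e', s', t', d', i'⟩ := v
  have : e' ≤ e ∧ s' ≤ s + 1 ∧ t' ≤ 1 ∧ d' ≤ 1 ∧ i' ≤ k := by
    unfold A0 at h
    simp only at h
    omega
  exact pair_mono this.1 (pair_mono this.2.1 (pair_mono this.2.2.1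
    (pair_mono this.2.2.2.1 this.2.2.2.2)))

theorem gg_nbrs (k : ℕ) :
    ∃ nbrs : ℕ → List ℕ, Computable nbrs ∧ ∀ x y : ℕ, (GG k).Adj x y ↔ y ∈ nbrs x := by
  have hd : Primrec dec := Primrec.ofNat T
  have hA : PrimrecRel fun (y x : ℕ) => (GG k).Adj x y :=
    ((a0_prim k).comp (hd.comp Primrec.snd) (hd.comp Primrec.fst)).or
      ((a0_prim k).comp (hd.comp Primrec.fst) (hd.comp Primrec.snd))
  have hB : Primrec fun x : ℕ => List.range (enc ((dec x).1, (dec x).2.1 + 1, 1, 1, k) + 1) :=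
    Primrec.list_range.comp (Primrec.succ.comp (Primrec.encode.comp ((Primrec.fst.comp hd).pair
      ((Primrec.succ.comp (Primrec.fst.comp (Primrec.snd.comp hd))).pair (Primrec.const _)))))
  refine ⟨_, (hA.listFilter.comp hB Primrec.id).to_comp, fun x y => ?_⟩
  simp only [List.mem_filter, List.mem_range, decide_eq_true_eq, id]
  refine ⟨fun h => ⟨Nat.lt_succ_of_le ?_, h⟩, fun h => h.2⟩
  have := enc_le h
  rwa [enc_dec] at this

/-- the colour of the edge from the left vertex `u` to the right vertex `v`. -/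
def col0 (k : ℕ) (a : ℕ → ℕ → ℕ) (u v : T) : ℕ :=
  if u.2.1 = v.2.1 then (u.2.2.2.2 + v.2.2.2.2 + a v.1 v.2.2.1) % k else a v.1 v.2.2.1

theorem mod_inj {k x y c : ℕ} (hx : x < k) (hy : y < k) (h : (x + c) % k = (y + c) % k) : x = y :=
  Nat.ModEq.eq_of_lt_of_lt (Nat.ModEq.add_right_cancel' c h) hx hy

theorem col0_left {k : ℕ} {a : ℕ → ℕ → ℕ} (ha : ∀ e t, a e t < k)
    (ha' : ∀ e s, ¬ alive e s → a e 0 ≠ a e 1) {u v w : T} (h : A0 k u v) (h' : A0 k u w)
    (he : col0 k a u v = col0 k a u w) : v = w := by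
  obtain ⟨e, s, t, d, i⟩ := u
  obtain ⟨e1, s1, t1, d1, i1⟩ := v
  obtain ⟨e2, s2, t2, d2, i2⟩ := w
  unfold A0 at h h'
  unfold col0 at he
  simp only at h h' he
  obtain ⟨rfl, rfl, rfl, h1, h2, h3⟩ := h
  obtain ⟨rfl, -, rfl, g1, g2, g3⟩ := h'
  have key : ∀ j t, 0 < j → j < k → (0 + j + a e t) % k ≠ a e t := by
    intro j t j0 jk hh
    have : (j + a e t) % k = (0 + a e t) % k := by
      rw [Nat.zero_add] at hh ⊢
      rw [hh, Nat.mod_eq_of_lt (ha e t)]
    have := mod_inj jk (by omega) this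
    omega
  rcases h3 with ⟨rfl, rfl, h4, h5, h6⟩ | ⟨rfl, rfl, rfl, h6⟩ <;>
    rcases g3 with ⟨g3, g4, g5, g6, g7⟩ | ⟨g3, g4, rfl, g6⟩
  · subst g3 g4
    simp only [if_true] at he
    have : i1 = i2 := mod_inj (c := i + a e t) h5 g6 (by
      rw [← Nat.add_assoc, ← Nat.add_assoc, Nat.add_comm i1, Nat.add_comm i2]; exact he)
    rw [this]
  · subst g4
    rw [if_pos rfl, if_neg (by omega)] at he
    rcases g6 with ⟨-, rfl⟩ | ⟨g6, -⟩
    · exact absurd he (key _ _ (by omega) h5)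
    · exact absurd h2 g6
  · subst g3 g4
    rw [if_neg (by omega), if_pos rfl] at he
    rcases h6 with ⟨-, rfl⟩ | ⟨h6, -⟩
    · exact absurd he.symm (key _ _ (by omega) g6)
    · exact absurd g2 h6
  · obtain rfl : s1 = s2 := by omega
    rw [if_neg (by omega), if_neg (by omega)] at he
    rcases h6 with ⟨h6, rfl⟩ | ⟨h6, -⟩
    · rcases g6 with ⟨-, rfl⟩ | ⟨g6, -⟩
      · rfl
      · exact absurd h6 g6
    · have := ha' _ _ h6
      have h7 : t1 = t2 := by
        by_contra h8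
        rcases (by omega : (t1 = 0 ∧ t2 = 1) ∨ (t1 = 1 ∧ t2 = 0)) with ⟨rfl, rfl⟩ | ⟨rfl, rfl⟩
        exacts [this he, this he.symm]
      rw [h7]

theorem col0_right {k : ℕ} {a : ℕ → ℕ → ℕ} (ha : ∀ e t, a e t < k) {u v w : T} (h : A0 k v u)
    (h' : A0 k w u) (he : col0 k a v u = col0 k a w u) : v = w := by
  obtain ⟨e, s, t, d, i⟩ := u
  obtain ⟨e1, s1, t1, d1, i1⟩ := v
  obtain ⟨e2, s2, t2, d2, i2⟩ := w
  unfold A0 at h h'
  unfold col0 at he
  simp only at h h' he
  obtain ⟨rfl, rfl, rfl, h1, h2, h3⟩ := h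
  obtain ⟨rfl, rfl, -, -, -, g3⟩ := h'
  have key : ∀ j t, 0 < j → j < k → (j + 0 + a e2 t) % k ≠ a e2 t := by
    intro j t j0 jk hh
    have : (j + a e2 t) % k = (0 + a e2 t) % k := by
      rw [Nat.add_zero] at hh
      rw [hh, Nat.zero_add, Nat.mod_eq_of_lt (ha e2 t)]
    have := mod_inj jk (by omega) this
    omega
  rcases h3 with ⟨rfl, rfl, h4, h5, h6⟩ | ⟨rfl, rfl, rfl, h6⟩ <;>
    rcases g3 with ⟨g3, g4, g5, g6, g7⟩ | ⟨g3, g4, g5, g6⟩
  · subst g3 g4
    simp only [if_true] at he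
    have : i1 = i2 := mod_inj (c := i + a e2 t2) h4 g5 (by
      rw [← Nat.add_assoc, ← Nat.add_assoc]; exact he)
    rw [this]
  · subst g5
    rw [if_pos rfl, if_neg (by omega)] at he
    exact absurd he (key _ _ (by omega) h4)
  · subst g3 g4
    rw [if_neg (by omega), if_pos rfl] at he
    exact absurd he.symm (key _ _ (by omega) g5)
  · subst g3 g4
    rcases h6 with ⟨h6, rfl⟩ | ⟨h6, rfl⟩ <;> rcases g6 with ⟨g6, rfl⟩ | ⟨g6, rfl⟩
    · rfl
    · exact absurd h6 g6
    · exact absurd g6 h6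
    · rfl

theorem gg_col {k : ℕ} {a : ℕ → ℕ → ℕ} (ha : ∀ e t, a e t < k)
    (ha' : ∀ e s, ¬ alive e s → a e 0 ≠ a e 1) :
    ∃ c, IsColouring (GG k) k c ∧ ∀ u v, A0 k u v → c (enc u) (enc v) = col0 k a u v := by
  have hlt : ∀ u v, col0 k a u v < k := by
    intro u v
    unfold col0
    split_ifs
    · exact Nat.mod_lt _ (Nat.zero_lt_of_lt (ha 0 0))
    · exact ha _ _
  have inj : ∀ x y, dec x = dec y → x = y := fun x y h => by rw [← enc_dec x, h, enc_dec]
  refine ⟨fun x y => if (dec x).2.2.2.1 = 0 then col0 k a (dec x) (dec y)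
    else col0 k a (dec y) (dec x), ⟨?_, ?_⟩, fun u v h => by simp [dec_enc, h.2.1]⟩
  · rintro x y (h | h)
    · simp [h.2.1, h.2.2.1, hlt]
    · simp [h.2.1, h.2.2.1, hlt]
  · rintro x y z (h | h) (h' | h') hne he
    · simp only [h.2.1, if_true] at he
      exact hne (inj _ _ (col0_left ha ha' h h' he))
    · exact absurd (h.2.1.symm.trans h'.2.2.1) (by decide)
    · exact absurd (h'.2.1.symm.trans h.2.2.1) (by decide)
    · simp only [h.2.2.1, one_ne_zero, if_false] at he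
      exact hne (inj _ _ (col0_right ha h h' he))

/-- a square array with one exceptional cell. -/
theorem latin {k : ℕ} (r c : Fin (k + 1) → Fin (k + 1) → Fin (k + 1))
    (hr : ∀ i, Function.Injective (r i)) (hc : ∀ j, Function.Injective fun i => c i j)
    (h : ∀ i j, ¬ (i = 0 ∧ j = 0) → r i j = c i j) : c 0 0 = r 0 0 := by
  by_contra hne
  choose τ hτ using fun j => Finite.surjective_of_injective (hc j) (r 0 0)
  have h1 : ∀ j, r (τ j) j = r 0 0 := fun j => by
    refine (h _ _ ?_).trans (hτ j)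
    rintro ⟨e, rfl⟩
    have := hτ 0
    rw [e] at this
    exact hne this
  have h2 : Function.Injective τ := fun j j' e => hr (τ j) ((h1 j).trans (e ▸ (h1 j').symm))
  obtain ⟨j, hj⟩ := Finite.surjective_of_injective h2 0
  obtain rfl : j = 0 := hr 0 (hj ▸ h1 j)
  have := hτ 0
  rw [hj] at this
  exact hne this

/-- the left end of the edge that leaves stage `s`. -/
noncomputable def nx (e s t : ℕ) : T := (e, s + 1, if alive e (s + 1) then t else 0, 0, 0)

theorem a0_out (k : ℕ) {e s t : ℕ} (h : alive e s) (ht : t < 2) :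
    A0 k (nx e s t) (e, s, t, 1, 0) := by
  refine ⟨rfl, rfl, rfl, ht, h, Or.inr ⟨rfl, rfl, rfl, ?_⟩⟩
  by_cases h1 : alive e (s + 1)
  · exact Or.inl ⟨h1, if_pos h1⟩
  · exact Or.inr ⟨h1, if_neg h1⟩

theorem adj_enc {k : ℕ} {u v : T} (h : A0 k u v) : (GG k).Adj (enc u) (enc v) :=
  Or.inl (by rwa [dec_enc, dec_enc])

theorem enc_inj {u v : T} (h : enc u = enc v) : u = v := Encodable.encode_injective h

theorem force {k : ℕ} {c : ℕ → ℕ → ℕ} (hc : IsColouring (GG (k + 1)) (k + 1) c) {e s t : ℕ}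
    (h0 : alive e s) (h1 : alive e (s + 1)) (ht : t < 2) :
    c (enc (nx e (s + 1) t)) (enc (e, s + 1, t, 1, 0)) = c (enc (nx e s t)) (enc (e, s, t, 1, 0)) := by
  have e0 : nx e s t = (e, s + 1, t, 0, 0) := by simp [nx, h1]
  let R : Fin (k + 1) → Fin (k + 1) → T := fun i j =>
    if i = 0 ∧ j = 0 then (e, s, t, 1, 0) else (e, s + 1, t, 1, j)
  let L : Fin (k + 1) → Fin (k + 1) → T := fun i j =>
    if i = 0 ∧ j = 0 then nx e (s + 1) t else (e, s + 1, t, 0, i)
  have hin : ∀ i j : Fin (k + 1), ¬ (i = 0 ∧ j = 0) →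
      A0 (k + 1) (e, s + 1, t, 0, i) (e, s + 1, t, 1, j) := fun i j h =>
    ⟨rfl, rfl, rfl, ht, h1, Or.inl ⟨rfl, rfl, i.2, j.2, fun g => h ⟨Fin.ext g.1, Fin.ext g.2⟩⟩⟩
  have hR : ∀ i j : Fin (k + 1), A0 (k + 1) (e, s + 1, t, 0, (i : ℕ)) (R i j) := by
    intro i j
    by_cases h : i = 0 ∧ j = 0
    · obtain ⟨rfl, rfl⟩ := h
      simpa [R, e0] using a0_out (k + 1) h0 ht
    · simpa only [R, if_neg h] using hin i j h
  have hL : ∀ i j : Fin (k + 1), A0 (k + 1) (L i j) (e, s + 1, t, 1, (j : ℕ)) := by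
    intro i j
    by_cases h : i = 0 ∧ j = 0
    · obtain ⟨rfl, rfl⟩ := h
      simpa [L] using a0_out (k + 1) h1 ht
    · simpa only [L, if_neg h] using hin i j h
  have := latin (fun i j => ⟨_, (hc.1 _ _ (adj_enc (hR i j))).2⟩)
    (fun i j => ⟨_, (hc.1 _ _ (adj_enc (hL i j)).symm).2⟩) ?_ ?_ ?_
  · have h2 := congrArg Fin.val this
    simp only [R, L, and_self, if_true, Fin.val_zero] at h2
    rw [e0, ← h2]
    exact (hc.1 _ _ (adj_enc (a0_out (k + 1) h1 ht))).1
  · intro i j j' h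
    by_contra hne
    refine hc.2 _ _ _ (adj_enc (hR i j)) (adj_enc (hR i j')) (fun g => ?_) (congrArg Fin.val h)
    have g' := enc_inj g
    simp only [R] at g'
    split_ifs at g' with a b b
    · exact hne (a.2.trans b.2.symm)
    · simp at g'
    · simp at g'
    · exact hne (Fin.ext (by simpa using g'))
  · intro j i i' h
    by_contra hne
    refine hc.2 _ _ _ (adj_enc (hL i j)).symm (adj_enc (hL i' j)).symm (fun g => ?_)
      (congrArg Fin.val h)
    have g' := enc_inj g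
    simp only [L, nx] at g'
    by_cases a : i = 0 ∧ j = 0 <;> by_cases b : i' = 0 ∧ j = 0
    · exact hne (a.1.trans b.1.symm)
    · simp [if_pos a, if_neg b] at g'
    · simp [if_neg a, if_pos b] at g'
    · rw [if_neg a, if_neg b] at g'
      exact hne (Fin.ext (by simpa using g'))
  · intro i j h
    apply Fin.ext
    simp only [R, L, if_neg h]
    exact (hc.1 _ _ (adj_enc (hin i j h))).1

/-- the precolouring attached to machine `e`. -/
def pre (e : ℕ) : List (ℕ × ℕ × ℕ) :=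
  [(enc (e, 1, 0, 0, 0), enc (e, 0, 0, 1, 0), 0), (enc (e, 1, 0, 0, 0), enc (e, 0, 1, 1, 0), 0),
    (enc (e, 1, 1, 0, 0), enc (e, 0, 1, 1, 0), 0)]

theorem pre_prim : Primrec pre := by
  have h : ∀ u v : ℕ × ℕ × ℕ × ℕ, Primrec fun e : ℕ => (enc (e, u), enc (e, v), 0) := fun u v =>
    (Primrec.encode.comp (Primrec.id.pair (Primrec.const u))).pair
      ((Primrec.encode.comp (Primrec.id.pair (Primrec.const v))).pair (Primrec.const 0))
  exact Primrec.list_cons.comp (h _ _) (Primrec.list_cons.comp (h _ _)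
    (Primrec.list_cons.comp (h _ _) (Primrec.const [])))

theorem pre_iff {k : ℕ} (hk : 2 ≤ k) (e : ℕ) :
    (∃ c, IsColouring (GG k) k c ∧ Extends (GG k) (pre e) c) ↔ ∀ s, alive e s := by
  constructor
  · rintro ⟨c, hc, hp⟩
    obtain ⟨k, rfl⟩ : ∃ m, k = m + 1 := ⟨k - 1, by omega⟩
    have h0 : alive e 0 := by simp [alive, Code.evaln]
    have key : ∀ s, alive e s ∧ ∀ t < 2, c (enc (nx e s t)) (enc (e, s, t, 1, 0)) = 0 := by
      intro s
      induction s with
      | zero =>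
        refine ⟨h0, fun t ht => hp (enc (nx e 0 t), enc (e, 0, t, 1, 0), 0) ?_
          (adj_enc (a0_out _ h0 ht))⟩
        by_cases h : alive e (0 + 1) <;> interval_cases t <;> simp [pre, nx, h]
      | succ s ih =>
        have h1 : alive e (s + 1) := by
          by_contra h
          have e1 : nx e s 1 = nx e s 0 := by simp [nx, h]
          refine hc.2 _ _ _ (adj_enc (a0_out _ ih.1 (by decide : 0 < 2)))
            (e1 ▸ adj_enc (a0_out _ ih.1 (by decide : 1 < 2))) (fun g => ?_) ?_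
          · simpa using enc_inj g
          · rw [ih.2 0 (by decide), ← e1, ih.2 1 (by decide)]
        exact ⟨h1, fun t ht => (force hc ih.1 h1 ht).trans (ih.2 t ht)⟩
    exact fun s => (key s).1
  · intro h
    obtain ⟨c, hc, hc'⟩ := gg_col (k := k) (a := fun e' t => if e' = e ∨ t = 0 then 0 else 1)
      (fun e' t => by split_ifs <;> omega)
      (fun e' s hs => by
        have : e' ≠ e := fun g => hs (g ▸ h s)
        simp [this])
    refine ⟨c, hc, fun t ht a => ?_⟩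
    have key : ∀ u v : T, u.2.2.2.1 = 0 → v.1 = e → u.2.1 ≠ v.2.1 → (GG k).Adj (enc u) (enc v) →
        c (enc u) (enc v) = 0 := by
      rintro u v h1 h2 h3 (g | g) <;> rw [dec_enc, dec_enc] at g
      · rw [hc' u v g]
        simp [col0, h2, h3]
      · exact absurd (h1.symm.trans g.2.2.1) (by decide)
    simp only [pre, List.mem_cons, List.not_mem_nil, or_false] at ht
    rcases ht with rfl | rfl | rfl <;> exact key _ _ rfl rfl one_ne_zero a

theorem gg_hc {k Δ : ℕ} (hk : 2 ≤ k) (h : k ≤ Δ) : HighlyComputable (GG k) Δ := by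
  refine ⟨gg_nbrs k, fun x s hs => le_trans ?_ h⟩
  obtain ⟨c, hc, -⟩ := gg_col (k := k) (a := fun _ t => if t = 0 then 0 else 1)
    (fun e' t => by split_ifs <;> omega) (fun e' s hs => by simp)
  rw [← Finset.card_range k]
  refine Finset.card_le_card_of_injOn (c x)
    (fun y hy => Finset.mem_coe.2 (Finset.mem_range.2 (hc.1 x y (hs y hy)).2)) ?_
  intro y hy z hz e
  by_contra hne
  exact hc.2 x y z (hs y hy) (hs z hz) hne e

theorem gg_undec {k : ℕ} (hk : 2 ≤ k) :
    ¬ ComputablePred fun p => ∃ c, IsColouring (GG k) k c ∧ Extends (GG k) p c := by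
  intro h
  refine ComputablePred.halting_problem 0 ?_
  have h1 : ComputablePred fun c : Code =>
      ∃ c', IsColouring (GG k) k c' ∧ Extends (GG k) (pre (Encodable.encode c)) c' :=
    Computable.computablePred (h.decide.comp (pre_prim.to_comp.comp Computable.encode))
  refine h1.not.of_eq fun c => ?_
  rw [pre_iff hk]
  simp only [alive, Denumerable.ofNat_encode, not_forall]
  constructor
  · rintro ⟨s, hs⟩
    obtain ⟨x, hx⟩ := Option.ne_none_iff_exists'.1 hs
    exact Part.dom_iff_mem.2 ⟨x, Code.evaln_sound hx⟩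
  · intro hd
    obtain ⟨x, hx⟩ := Part.dom_iff_mem.1 hd
    obtain ⟨s, hs⟩ := Code.evaln_complete.1 hx
    exact ⟨s, fun g => by simp [g] at hs⟩

theorem threshold (k Δ : ℕ) (hk : 2 ≤ k) : List.TFAE
    [Δ < k,
     ∀ G : SimpleGraph ℕ, HighlyComputable G Δ →
       ∃ (D : List (ℕ × ℕ × ℕ) → Bool) (C : List (ℕ × ℕ × ℕ) → ℕ → ℕ → ℕ), Computable D ∧
         Computable (fun q : List (ℕ × ℕ × ℕ) × ℕ × ℕ => C q.1 q.2.1 q.2.2) ∧
         ∀ p, (D p = true → IsColouring G k (C p) ∧ Extends G p (C p)) ∧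
           (D p = false → ¬ ∃ c, IsColouring G k c ∧ Extends G p c),
     ∀ G : SimpleGraph ℕ, HighlyComputable G Δ →
       ComputablePred fun p : List (ℕ × ℕ × ℕ) => ∃ c, IsColouring G k c ∧ Extends G p c] := by
  tfae_have 1 → 2 := by
    rintro h G ⟨⟨nbrs, h1, h2⟩, h3⟩
    obtain ⟨k, rfl⟩ : ∃ m, k = m + 1 := ⟨k - 1, by omega⟩
    simp only [isCol_iff]
    exact decidable_ext G nbrs h1 h2 k fun x s hs => (h3 x s hs).trans (by omega)
  tfae_have 2 → 3 := by
    intro h G hG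
    obtain ⟨D, C, h1, -, h3⟩ := h G hG
    refine (Computable.computablePred (p := fun p => D p = true) (h1.of_eq (by simp))).of_eq
      fun p => ⟨fun e => ⟨_, (h3 p).1 e⟩, fun e => ?_⟩
    cases hD : D p
    · exact absurd e ((h3 p).2 hD)
    · rfl
  tfae_have 3 → 1 := by
    intro h
    by_contra hn
    exact gg_undec hk (h _ (gg_hc hk (by omega)))
  tfae_finish

end Pool.Agent.Work.MP_20d0cc_lc
end
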