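import Mathlib

-- merged part: Pool.Agent.Work.MP_20d0cc_lc.Kempe
section
/-! Incomplete proper edge colourings, Kempe chains and the basic recolouring moves. -/

set_option autoImplicit false

namespace Pool.Agent.Work.MP_20d0cc_lc

open Classical

variable {V C : Type*}

/-- `c` is a proper edge colouring of some of the edges of `G`. -/
structure Proper (G : SimpleGraph V) (c : V → V → Option C) : Prop where
  symm : ∀ u v, c u v = c v u
  adj : ∀ u v a, c u v = some a → G.Adj u v
  inj : ∀ u v w a, c u v = some a → c u w = some a → v = w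

/-- colour `a` is missing at `x`. -/
def Miss (c : V → V → Option C) (x : V) (a : C) : Prop := ∀ y, c x y ≠ some a

/-- `u v` is an edge coloured `α` or `β`. -/
def Kadj (c : V → V → Option C) (α β : C) (u v : V) : Prop := c u v = some α ∨ c u v = some β

/-- connected by a path of edges coloured `α` or `β`. -/
def Conn (c : V → V → Option C) (α β : C) : V → V → Prop := Relation.ReflTransGen (Kadj c α β)

/-- `v` misses one of the two colours. -/
def IsEnd (c : V → V → Option C) (α β : C) (v : V) : Prop := Miss c v α ∨ Miss c v β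

variable {G : SimpleGraph V} {c : V → V → Option C}

theorem kadj_comm {α β : C} {u v : V} : Kadj c α β u v ↔ Kadj c β α u v := by
  unfold Kadj; tauto

theorem conn_comm {α β : C} {u v : V} : Conn c α β u v ↔ Conn c β α u v := by
  have : Kadj c α β = Kadj c β α := by ext u v; exact kadj_comm
  unfold Conn; rw [this]

theorem isEnd_comm {α β : C} {u : V} : IsEnd c α β u ↔ IsEnd c β α u := by
  unfold IsEnd; tauto

theorem Proper.kadj_symm (hc : Proper G c) {α β : C} {u v : V} (h : Kadj c α β u v) :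
    Kadj c α β v u := by
  unfold Kadj at *; rwa [hc.symm v u]

theorem Proper.conn_symm (hc : Proper G c) {α β : C} {u v : V} (h : Conn c α β u v) :
    Conn c α β v u := by
  induction h with
  | refl => exact Relation.ReflTransGen.refl
  | tail _ h2 ih => exact Relation.ReflTransGen.head (hc.kadj_symm h2) ih

theorem Conn.trans {α β : C} {u v w : V} (h : Conn c α β u v) (h' : Conn c α β v w) :
    Conn c α β u w := Relation.ReflTransGen.trans h h'

theorem Conn.refl {α β : C} {u : V} : Conn c α β u u := Relation.ReflTransGen.refl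

theorem Conn.tail {α β : C} {u v w : V} (h : Conn c α β u v) (h' : Kadj c α β v w) :
    Conn c α β u w := Relation.ReflTransGen.tail h h'

/-- A set containing `u` and closed under `Kadj` contains the component of `u`. -/
theorem Conn.mem_of_closed {α β : C} {u v : V} (S : V → Prop) (hu : S u)
    (hS : ∀ s t, S s → Kadj c α β s t → S t) (h : Conn c α β u v) : S v := by
  induction h with
  | refl => exact hu
  | tail _ h2 ih => exact hS _ _ ih h2

theorem conn_self_of_miss {α : C} {u v : V} (hu : Miss c u α) (h : Conn c α α u v) : v = u := by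
  refine h.mem_of_closed (fun s => s = u) rfl ?_
  rintro s t rfl (h | h) <;> exact absurd h (hu t)

/-- the neighbour along colour `a`, if any. -/
noncomputable def nxt (c : V → V → Option C) (a : C) (u : V) : V :=
  if h : ∃ v, c u v = some a then h.choose else u

theorem nxt_spec {a : C} {u : V} (h : ¬ Miss c u a) : c u (nxt c a u) = some a := by
  have h' : ∃ v, c u v = some a := by
    by_contra hh; exact h (fun y hy => hh ⟨y, hy⟩)
  unfold nxt; rw [dif_pos h']; exact h'.choose_spec

theorem Proper.eq_nxt (hc : Proper G c) {a : C} {u v : V} (h : c u v = some a) :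
    v = nxt c a u :=
  hc.inj u _ _ a h (nxt_spec (fun hm => hm v h))

/-- alternating colours -/
def col (α β : C) (i : ℕ) : C := if i % 2 = 0 then α else β

theorem col_cases (α β : C) (i : ℕ) :
    (col α β i = α ∧ col α β (i + 1) = β) ∨ (col α β i = β ∧ col α β (i + 1) = α) := by
  unfold col
  rcases Nat.mod_two_eq_zero_or_one i with h | h
  · left; have : (i + 1) % 2 = 1 := by omega
    simp [h, this]
  · right; have : (i + 1) % 2 = 0 := by omega
    simp [h, this]

theorem col_zero (α β : C) : col α β 0 = α := by simp [col]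

/-- the alternating walk from `z`. -/
noncomputable def pth (c : V → V → Option C) (α β : C) (z : V) : ℕ → V
  | 0 => z
  | i + 1 => nxt c (col α β i) (pth c α β z i)

/-- the walk has not stalled before time `j`. -/
def Live (c : V → V → Option C) (α β : C) (z : V) (j : ℕ) : Prop :=
  ∀ i < j, c (pth c α β z i) (pth c α β z (i + 1)) = some (col α β i)

theorem Live.mono {α β : C} {z : V} {j k : ℕ} (h : Live c α β z k) (hjk : j ≤ k) :
    Live c α β z j := fun i hi => h i (lt_of_lt_of_le hi hjk)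

theorem Live.conn {α β : C} {z : V} {j : ℕ} (h : Live c α β z j) :
    Conn c α β z (pth c α β z j) := by
  induction j with
  | zero => exact Conn.refl
  | succ j ih =>
    refine (ih (h.mono (Nat.le_succ j))).tail ?_
    have := h j (Nat.lt_succ_self j)
    rcases col_cases α β j with h1 | h1
    · left; rw [this, h1.1]
    · right; rw [this, h1.1]

theorem Proper.nbr_pth (hc : Proper G c) {α β : C} {z : V} (hz : Miss c z β) {j : ℕ}
    (hj : Live c α β z j) {v : V} (hv : Kadj c α β (pth c α β z j) v) :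
    (v = pth c α β z (j + 1) ∧ c (pth c α β z j) v = some (col α β j)) ∨
      ∃ i, j = i + 1 ∧ v = pth c α β z i := by
  by_cases h : c (pth c α β z j) v = some (col α β j)
  · left; exact ⟨hc.eq_nxt h, h⟩
  · right
    cases j with
    | zero =>
      exfalso
      rw [col_zero] at h
      rcases hv with hv | hv
      · exact h hv
      · exact hz v hv
    | succ i =>
      refine ⟨i, rfl, ?_⟩
      have h1 := hj i (Nat.lt_succ_self i)
      rw [hc.symm] at h1
      have h2 : c (pth c α β z (i + 1)) v = some (col α β i) := by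
        rcases col_cases α β i with h3 | h3 <;> rcases hv with hv | hv
        · rw [hv, h3.1]
        · exact absurd (by rw [hv, h3.2]) h
        · exact absurd (by rw [hv, h3.2]) h
        · rw [hv, h3.1]
      exact hc.inj _ _ _ _ h2 h1

theorem Proper.conn_live (hc : Proper G c) {α β : C} {z : V} (hz : Miss c z β) {v : V}
    (hv : Conn c α β z v) : ∃ j, Live c α β z j ∧ v = pth c α β z j := by
  refine hv.mem_of_closed (fun s => ∃ j, Live c α β z j ∧ s = pth c α β z j)
    ⟨0, fun i hi => absurd hi (Nat.not_lt_zero i), rfl⟩ ?_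
  rintro s t ⟨j, hj, rfl⟩ hk
  rcases hc.nbr_pth hz hj hk with ⟨h1, h2⟩ | ⟨i, rfl, h1⟩
  · refine ⟨j + 1, ?_, h1⟩
    intro i hi
    rcases Nat.lt_succ_iff_lt_or_eq.1 hi with h | h
    · exact hj i h
    · subst h; rw [← h1]; exact h2
  · exact ⟨i, hj.mono (Nat.le_succ i), h1⟩

theorem Proper.not_end_mid (hc : Proper G c) {α β : C} {z : V} {j : ℕ}
    (hj : Live c α β z (j + 2)) : ¬ IsEnd c α β (pth c α β z (j + 1)) := by
  have h1 := hj j (by omega)
  have h2 := hj (j + 1) (by omega)
  rw [hc.symm] at h1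
  rcases col_cases α β j with h3 | h3
  · rw [h3.1] at h1; rw [h3.2] at h2
    rintro (h | h)
    · exact h _ h1
    · exact h _ h2
  · rw [h3.1] at h1; rw [h3.2] at h2
    rintro (h | h)
    · exact h _ h2
    · exact h _ h1

theorem Proper.ends_aux (hc : Proper G c) {α β : C} {z v w : V} (hz : Miss c z β)
    (hv : Conn c α β z v) (hw : Conn c α β z w) (ev : IsEnd c α β v) (ew : IsEnd c α β w) :
    z = v ∨ z = w ∨ v = w := by
  obtain ⟨j, hj, rfl⟩ := hc.conn_live hz hv
  obtain ⟨k, hk, rfl⟩ := hc.conn_live hz hw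
  cases j with
  | zero => left; rfl
  | succ j =>
    cases k with
    | zero => right; left; rfl
    | succ k =>
      right; right
      rcases lt_trichotomy j k with h | h | h
      · exact absurd ev (hc.not_end_mid (hk.mono (by omega)))
      · rw [h]
      · exact absurd ew (hc.not_end_mid (hj.mono (by omega)))

/-- A Kempe component has at most two ends. -/
theorem Proper.ends (hc : Proper G c) {α β : C} {z v w : V} (ez : IsEnd c α β z)
    (hv : Conn c α β z v) (hw : Conn c α β z w) (ev : IsEnd c α β v) (ew : IsEnd c α β w) :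
    z = v ∨ z = w ∨ v = w := by
  rcases ez with hz | hz
  · exact hc.ends_aux hz (conn_comm.1 hv) (conn_comm.1 hw) (isEnd_comm.1 ev) (isEnd_comm.1 ew)
  · exact hc.ends_aux hz hv hw ev ew

theorem Proper.ends_finset (hc : Proper G c) (α β : C) (w : V) :
    ∃ s : Finset V, s.card ≤ 2 ∧ ∀ v, Conn c α β w v → IsEnd c α β v → v ∈ s := by
  by_cases h1 : ∃ v, Conn c α β w v ∧ IsEnd c α β v
  · obtain ⟨v1, hv1, ev1⟩ := h1
    by_cases h2 : ∃ v, Conn c α β w v ∧ IsEnd c α β v ∧ v ≠ v1
    · obtain ⟨v2, hv2, ev2, hne⟩ := h2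
      refine ⟨{v1, v2}, Finset.card_le_two, ?_⟩
      intro v hv ev
      have := hc.ends ev1 ((hc.conn_symm hv1).trans hv2) ((hc.conn_symm hv1).trans hv) ev2 ev
      simp only [Finset.mem_insert, Finset.mem_singleton]
      rcases this with h | h | h
      · exact absurd h.symm hne
      · left; exact h.symm
      · right; exact h.symm
    · refine ⟨{v1}, by simp, ?_⟩
      intro v hv ev
      by_contra hh
      exact h2 ⟨v, hv, ev, by simpa using hh⟩
  · exact ⟨∅, by simp, fun v hv ev => absurd ⟨v, hv, ev⟩ h1⟩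

theorem Proper.pth_inj (hc : Proper G c) {α β : C} (hne : α ≠ β) {z : V} (hz : Miss c z β) :
    ∀ j, Live c α β z j → ∀ i < j, pth c α β z i ≠ pth c α β z j := by
  intro j
  induction j using Nat.strong_induction_on with
  | _ j ih =>
    intro hj i hi heq
    obtain ⟨m, rfl⟩ : ∃ m, j = m + 1 := ⟨j - 1, by omega⟩
    have hm := hj m (Nat.lt_succ_self m)
    have hadj := hc.adj _ _ _ hm
    rw [hc.symm, ← heq] at hm
    have hk : Kadj c α β (pth c α β z i) (pth c α β z m) := by
      rcases col_cases α β m with h3 | h3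
      · left; rw [hm, h3.1]
      · right; rw [hm, h3.1]
    have hlm : Live c α β z m := hj.mono (Nat.le_succ m)
    rcases hc.nbr_pth hz (hj.mono hi.le) hk with ⟨h1, h2⟩ | ⟨l, rfl, h1⟩
    · rcases lt_trichotomy (i + 1) m with h | h | h
      · exact ih m (Nat.lt_succ_self m) hlm (i + 1) h h1.symm
      · subst h
        rw [hm] at h2
        have h4 : col α β (i + 1) = col α β i := Option.some.inj h2
        rcases col_cases α β i with h3 | h3
        · rw [h3.1, h3.2] at h4; exact hne h4.symm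
        · rw [h3.1, h3.2] at h4; exact hne h4
      · have : i = m := by omega
        subst this
        exact hadj.ne heq
    · exact ih m (Nat.lt_succ_self m) hlm l (by omega) h1.symm

/-- exchange `α` and `β` on the set `S`. -/
noncomputable def swapOn (c : V → V → Option C) (α β : C) (S : V → Prop) : V → V → Option C :=
  fun u v => if S u then (c u v).map (Equiv.swap α β) else c u v

theorem swapOn_of_not {α β : C} {S : V → Prop} {u : V} (hu : ¬ S u) (v : V) :
    swapOn c α β S u v = c u v := by simp [swapOn, hu]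

theorem swapOn_of_mem {α β : C} {S : V → Prop} {u : V} (hu : S u) (v : V) :
    swapOn c α β S u v = (c u v).map (Equiv.swap α β) := by simp [swapOn, hu]

theorem map_swap_eq_some {α β a : C} {o : Option C} :
    o.map (Equiv.swap α β) = some a ↔ o = some (Equiv.swap α β a) := by
  cases o with
  | none => simp
  | some b =>
    simp only [Option.map_some, Option.some.injEq]
    constructor
    · rintro rfl; simp
    · rintro rfl; simp

theorem swapOn_eq_none {α β : C} {S : V → Prop} {u v : V} :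
    swapOn c α β S u v = none ↔ c u v = none := by
  unfold swapOn; split_ifs <;> simp

theorem swapOn_other {α β : C} {S : V → Prop} {u v : V} {g : C} (h1 : g ≠ α) (h2 : g ≠ β) :
    swapOn c α β S u v = some g ↔ c u v = some g := by
  unfold swapOn; split_ifs
  · rw [map_swap_eq_some, Equiv.swap_apply_of_ne_of_ne h1 h2]
  · rfl

theorem miss_swapOn_left {α β : C} {S : V → Prop} {u : V} (hu : S u) :
    Miss (swapOn c α β S) u α ↔ Miss c u β := by
  unfold Miss
  simp only [swapOn_of_mem hu, ne_eq, map_swap_eq_some, Equiv.swap_apply_left]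

theorem miss_swapOn_right {α β : C} {S : V → Prop} {u : V} (hu : S u) :
    Miss (swapOn c α β S) u β ↔ Miss c u α := by
  unfold Miss
  simp only [swapOn_of_mem hu, ne_eq, map_swap_eq_some, Equiv.swap_apply_right]

theorem miss_swapOn_not {α β : C} {S : V → Prop} {u : V} (hu : ¬ S u) {a : C} :
    Miss (swapOn c α β S) u a ↔ Miss c u a := by
  unfold Miss
  simp only [swapOn_of_not hu]

theorem isEnd_swapOn {α β : C} {S : V → Prop} {u : V} :
    IsEnd (swapOn c α β S) α β u ↔ IsEnd c α β u := by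
  unfold IsEnd
  by_cases hu : S u
  · rw [miss_swapOn_left hu, miss_swapOn_right hu]; tauto
  · rw [miss_swapOn_not hu, miss_swapOn_not hu]

theorem Proper.swapOn (hc : Proper G c) {α β : C} {S : V → Prop}
    (hS : ∀ s t, S s → Kadj c α β s t → S t) : Proper G (swapOn c α β S) := by
  have key : ∀ u v, S u → ¬ S v → (c u v).map (Equiv.swap α β) = c u v := by
    intro u v hu hv
    cases h : c u v with
    | none => rfl
    | some a =>
      have h1 : a ≠ α := by rintro rfl; exact hv (hS u v hu (Or.inl h))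
      have h2 : a ≠ β := by rintro rfl; exact hv (hS u v hu (Or.inr h))
      simp [Equiv.swap_apply_of_ne_of_ne h1 h2]
  refine ⟨?_, ?_, ?_⟩
  · intro u v
    by_cases hu : S u <;> by_cases hv : S v
    · rw [swapOn_of_mem hu, swapOn_of_mem hv, hc.symm]
    · rw [swapOn_of_mem hu, swapOn_of_not hv, key u v hu hv, hc.symm]
    · rw [swapOn_of_not hu, swapOn_of_mem hv, key v u hv hu, hc.symm]
    · rw [swapOn_of_not hu, swapOn_of_not hv, hc.symm]
  · intro u v a h
    by_cases hu : S u
    · rw [swapOn_of_mem hu, map_swap_eq_some] at h; exact hc.adj _ _ _ h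
    · rw [swapOn_of_not hu] at h; exact hc.adj _ _ _ h
  · intro u v w a h1 h2
    by_cases hu : S u
    · rw [swapOn_of_mem hu, map_swap_eq_some] at h1 h2; exact hc.inj _ _ _ _ h1 h2
    · rw [swapOn_of_not hu] at h1 h2; exact hc.inj _ _ _ _ h1 h2

/-- replace the colours of the edges at `x` by `r`. -/
noncomputable def recolAt (c : V → V → Option C) (x : V) (r : V → Option C) : V → V → Option C :=
  fun u v => if u = x then r v else if v = x then r u else c u v

theorem recolAt_left (x : V) (r : V → Option C) (v : V) : recolAt c x r x v = r v := by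
  simp [recolAt]

theorem recolAt_off {x : V} (r : V → Option C) {u v : V} (hu : u ≠ x) (hv : v ≠ x) :
    recolAt c x r u v = c u v := by
  simp [recolAt, hu, hv]

theorem Proper.recolAt (hc : Proper G c) (x : V) (r : V → Option C)
    (h1 : ∀ v a, r v = some a → G.Adj x v)
    (h2 : ∀ v w a, r v = some a → r w = some a → v = w)
    (h3 : ∀ v w a, r v = some a → w ≠ x → c v w ≠ some a) : Proper G (recolAt c x r) := by
  refine ⟨?_, ?_, ?_⟩
  · intro u v
    unfold MP_20d0cc_lc.recolAt
    by_cases hu : u = x <;> by_cases hv : v = x <;> simp [hu, hv, hc.symm u v]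
  · intro u v a h
    unfold MP_20d0cc_lc.recolAt at h
    by_cases hu : u = x
    · rw [if_pos hu] at h; rw [hu]; exact h1 _ _ h
    · rw [if_neg hu] at h
      by_cases hv : v = x
      · rw [if_pos hv] at h; rw [hv]; exact (h1 _ _ h).symm
      · rw [if_neg hv] at h; exact hc.adj _ _ _ h
  · intro u v w a hv hw
    unfold MP_20d0cc_lc.recolAt at hv hw
    by_cases hu : u = x
    · rw [if_pos hu] at hv hw; exact h2 _ _ _ hv hw
    · rw [if_neg hu] at hv hw
      by_cases hvx : v = x <;> by_cases hwx : w = x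
      · rw [hvx, hwx]
      · rw [if_pos hvx] at hv; rw [if_neg hwx] at hw; exact absurd hw (h3 _ _ _ hv hwx)
      · rw [if_neg hvx] at hv; rw [if_pos hwx] at hw; exact absurd hv (h3 _ _ _ hw hvx)
      · rw [if_neg hvx] at hv; rw [if_neg hwx] at hw; exact hc.inj _ _ _ _ hv hw

/-- give the edge `x y` the value `o`. -/
noncomputable def setEdge (c : V → V → Option C) (x y : V) (o : Option C) : V → V → Option C :=
  fun u v => if (u = x ∧ v = y) ∨ (u = y ∧ v = x) then o else c u v

theorem setEdge_self (x y : V) (o : Option C) : setEdge c x y o x y = o := by simp [setEdge]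

theorem setEdge_off {x y : V} (o : Option C) {u : V} (h1 : u ≠ x) (h2 : u ≠ y) (v : V) :
    setEdge c x y o u v = c u v := by simp [setEdge, h1, h2]

theorem setEdge_of_ne {x y : V} (o : Option C) {u v : V}
    (h : ¬ ((u = x ∧ v = y) ∨ (u = y ∧ v = x))) : setEdge c x y o u v = c u v := by
  unfold setEdge; rw [if_neg h]

theorem setEdge_of_eq {x y : V} (o : Option C) {u v : V}
    (h : (u = x ∧ v = y) ∨ (u = y ∧ v = x)) : setEdge c x y o u v = o := by
  unfold setEdge; rw [if_pos h]

theorem Proper.setEdge (hc : Proper G c) {x y : V} (hxy : G.Adj x y) (o : Option C)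
    (ho : ∀ a, o = some a → Miss c x a ∧ Miss c y a) : Proper G (setEdge c x y o) := by
  have hne := hxy.ne
  refine ⟨?_, ?_, ?_⟩
  · intro u v
    by_cases h : (u = x ∧ v = y) ∨ (u = y ∧ v = x)
    · rw [setEdge_of_eq o h, setEdge_of_eq o (by tauto)]
    · rw [setEdge_of_ne o h, setEdge_of_ne o (by tauto), hc.symm]
  · intro u v a h
    by_cases h' : (u = x ∧ v = y) ∨ (u = y ∧ v = x)
    · rcases h' with ⟨rfl, rfl⟩ | ⟨rfl, rfl⟩
      · exact hxy
      · exact hxy.symm
    · rw [setEdge_of_ne o h'] at h; exact hc.adj _ _ _ h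
  · intro u v w a hv hw
    by_cases h1 : (u = x ∧ v = y) ∨ (u = y ∧ v = x) <;>
      by_cases h2 : (u = x ∧ w = y) ∨ (u = y ∧ w = x)
    · rcases h1 with ⟨h1, h1'⟩ | ⟨h1, h1'⟩ <;> rcases h2 with ⟨h2, h2'⟩ | ⟨h2, h2'⟩
      · rw [h1', h2']
      · exact absurd (h1.symm.trans h2) hne
      · exact absurd (h2.symm.trans h1) hne
      · rw [h1', h2']
    · rw [setEdge_of_eq o h1] at hv; rw [setEdge_of_ne o h2] at hw
      obtain ⟨m1, m2⟩ := ho a hv
      rcases h1 with ⟨rfl, _⟩ | ⟨rfl, _⟩
      · exact absurd hw (m1 w)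
      · exact absurd hw (m2 w)
    · rw [setEdge_of_eq o h2] at hw; rw [setEdge_of_ne o h1] at hv
      obtain ⟨m1, m2⟩ := ho a hw
      rcases h2 with ⟨rfl, _⟩ | ⟨rfl, _⟩
      · exact absurd hv (m1 v)
      · exact absurd hv (m2 v)
    · rw [setEdge_of_ne o h1] at hv; rw [setEdge_of_ne o h2] at hw
      exact hc.inj _ _ _ _ hv hw

/-- `u v` is coloured or is the edge `x y`. -/
def Cov (c : V → V → Option C) (x y u v : V) : Prop :=
  c u v ≠ none ∨ (u = x ∧ v = y) ∨ (u = y ∧ v = x)

/-- Swap a Kempe chain and colour the edge. -/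
theorem Proper.augment (hc : Proper G c) {x z : V} (hxz : G.Adj x z) {γ δ : C}
    (hx : Miss c x γ) (hz : Miss c z δ) (hn : ¬ Conn c γ δ z x) :
    ∃ c' : V → V → Option C, Proper G c' ∧ (∀ u v, Cov c x z u v → c' u v ≠ none) ∧
      ∀ u, ¬ Conn c γ δ z u → u ≠ x → ∀ v, c' u v = c u v := by
  have hS : ∀ s t, Conn c γ δ z s → Kadj c γ δ s t → Conn c γ δ z t := fun s t h1 h2 => h1.tail h2
  have h1 := hc.swapOn hS
  refine ⟨MP_20d0cc_lc.setEdge (MP_20d0cc_lc.swapOn c γ δ (Conn c γ δ z)) x z (some γ),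
    h1.setEdge hxz _ ?_, ?_, ?_⟩
  · intro a ha
    obtain rfl : γ = a := Option.some.inj ha
    exact ⟨(miss_swapOn_not hn).2 hx, (miss_swapOn_left Conn.refl).2 hz⟩
  · intro u v h
    by_cases h' : (u = x ∧ v = z) ∨ (u = z ∧ v = x)
    · rw [setEdge_of_eq _ h']; simp
    · rw [setEdge_of_ne _ h', ne_eq, swapOn_eq_none]
      exact h.resolve_right h'
  · intro u hu hux v
    have huz : u ≠ z := by rintro rfl; exact hu Conn.refl
    rw [setEdge_off _ hux huz, swapOn_of_not hu]

end Pool.Agent.Work.MP_20d0cc_lc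
end

-- merged part: Pool.Agent.Work.MP_20d0cc_lc.Fan
section
/-! The fan lemma. -/

set_option autoImplicit false

namespace Pool.Agent.Work.MP_20d0cc_lc

open Classical

variable {V C : Type*} {G : SimpleGraph V} {c : V → V → Option C}

/-- the fan sequence at `x`. -/
noncomputable def fanY (c : V → V → Option C) (d : V → C) (x y : V) : ℕ → V
  | 0 => y
  | k + 1 => nxt c (d (fanY c d x y k)) x

/-- colours at `x` after rotating the first `j` fan edges. -/
noncomputable def fanR (c : V → V → Option C) (d : V → C) (x y : V) (j : ℕ) : V → Option C :=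
  fun v => if v = fanY c d x y j then none
    else if ∃ i < j, v = fanY c d x y i then some (d v) else c x v

theorem fanR_some {d : V → C} {x y : V} {j : ℕ} {v : V} {a : C}
    (h : fanR c d x y j v = some a) :
    (∃ i < j, v = fanY c d x y i ∧ a = d (fanY c d x y i)) ∨
      (c x v = some a ∧ ∀ i ≤ j, v ≠ fanY c d x y i) := by
  unfold fanR at h
  split_ifs at h with h1 h2
  · obtain ⟨i, hi, rfl⟩ := h2
    exact Or.inl ⟨i, hi, rfl, (Option.some.inj h).symm⟩
  · right
    refine ⟨h, fun i hi hv => ?_⟩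
    rcases hi.lt_or_eq with h3 | h3
    · exact h2 ⟨i, h3, hv⟩
    · exact h1 (h3 ▸ hv)

theorem fan [Finite C] (hc : Proper G c) (hmiss : ∀ v, ∃ a, Miss c v a) {x y : V}
    (hxy : G.Adj x y) (hn : c x y = none) (P : C → Prop) {d0 : C} (hd0 : Miss c y d0)
    (hP0 : ¬ P d0) {γ : C} (hγ : Miss c x γ) :
    ∃ (c' : V → V → Option C) (z : V) (δ : C), Proper G c' ∧
      (∀ u v, u ≠ x → v ≠ x → c' u v = c u v) ∧ G.Adj x z ∧ c' x z = none ∧
      (∀ u v, Cov c x y u v → Cov c' x z u v) ∧ (∀ g, Miss c x g → Miss c' x g) ∧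
      Miss c z δ ∧ Miss c' z δ ∧
      (Miss c x δ ∨ (¬ P δ ∧ ¬ Miss c x δ ∧ ¬ Conn c' γ δ z x) ∨
        (P δ ∧ z ≠ y ∧ ∀ s a, P a → c' x s = some a → c x s = some a)) := by
  obtain ⟨d, hd, hdy⟩ : ∃ d : V → C, (∀ v, Miss c v (d v)) ∧ d y = d0 := by
    refine ⟨fun v => if v = y then d0 else (hmiss v).choose, fun v => ?_, by simp⟩
    by_cases h : v = y
    · simp only [h, if_true]; exact hd0
    · simp only [h, if_false]; exact (hmiss v).choose_spec
  set Y := fanY c d x y with hY
  have hY0 : Y 0 = y := rfl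
  have hYs : ∀ k, Y (k + 1) = nxt c (d (Y k)) x := fun k => rfl
  let Stop : ℕ → Prop := fun k => Miss c x (d (Y k)) ∨ P (d (Y k)) ∨ ∃ i < k, d (Y i) = d (Y k)
  have hex : ∃ k, Stop k := by
    obtain ⟨i, j, hij, h⟩ := Finite.exists_ne_map_eq_of_infinite (fun k : ℕ => d (Y k))
    rcases lt_or_gt_of_ne hij with h1 | h1
    · exact ⟨j, Or.inr (Or.inr ⟨i, h1, h⟩)⟩
    · exact ⟨i, Or.inr (Or.inr ⟨j, h1, h.symm⟩)⟩
  set k := Nat.find hex with hk
  have hstop : Stop k := Nat.find_spec hex
  have hns : ∀ j < k, ¬ Stop j := fun j hj => Nat.find_min hex hj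
  have hedge : ∀ j < k, c x (Y (j + 1)) = some (d (Y j)) := by
    intro j hj
    rw [hYs]
    exact nxt_spec (fun h => hns j hj (Or.inl h))
  have hdinj : ∀ i j, i < j → j < k → d (Y i) ≠ d (Y j) :=
    fun i j hij hj h => hns j hj (Or.inr (Or.inr ⟨i, hij, h⟩))
  have hdinj' : ∀ i j, i < k → j < k → d (Y i) = d (Y j) → i = j := by
    intro i j hi hj h
    rcases lt_trichotomy i j with h1 | h1 | h1
    · exact absurd h (hdinj i j h1 hj)
    · exact h1
    · exact absurd h.symm (hdinj j i h1 hi)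
  have hYinj : ∀ i j, i < j → j ≤ k → Y i ≠ Y j := by
    intro i j hij hj h
    obtain ⟨m, rfl⟩ : ∃ m, j = m + 1 := ⟨j - 1, by omega⟩
    have h1 := hedge m (by omega)
    cases i with
    | zero => rw [← h, hY0, hn] at h1; cases h1
    | succ l =>
      have h2 := hedge l (by omega)
      rw [h, h1] at h2
      exact hdinj l m (by omega) (by omega) (Option.some.inj h2).symm
  have hadj : ∀ j ≤ k, G.Adj x (Y j) := by
    intro j hj
    cases j with
    | zero => exact hxy
    | succ m => exact hc.adj _ _ _ (hedge m (by omega))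
  -- general facts about the rotated colourings
  have hprop : ∀ j ≤ k, Proper G (recolAt c x (fanR c d x y j)) := by
    intro j hj
    refine hc.recolAt x _ ?_ ?_ ?_
    · intro v a h
      rcases fanR_some h with ⟨i, hi, rfl, _⟩ | ⟨h1, _⟩
      · exact hadj i (by omega)
      · exact hc.adj _ _ _ h1
    · intro v w a hv hw
      rcases fanR_some hv with ⟨i, hi, rfl, hia⟩ | ⟨h1, h1'⟩ <;>
        rcases fanR_some hw with ⟨l, hl, rfl, hla⟩ | ⟨h2, h2'⟩
      · have : i = l := hdinj' i l (by omega) (by omega) (hia.symm.trans hla)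
        rw [this]
      · exfalso
        have h3 := hedge i (by omega)
        rw [hia] at h2
        exact h2' (i + 1) (by omega) (hc.inj _ _ _ _ h2 h3)
      · exfalso
        have h3 := hedge l (by omega)
        rw [hla] at h1
        exact h1' (l + 1) (by omega) (hc.inj _ _ _ _ h1 h3)
      · exact hc.inj _ _ _ _ h1 h2
    · intro v w a hv hw
      rcases fanR_some hv with ⟨i, hi, rfl, rfl⟩ | ⟨h1, _⟩
      · exact hd _ w
      · intro h2
        rw [hc.symm] at h1
        exact hw (hc.inj _ _ _ _ h2 h1)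
  have hnone : ∀ j, recolAt c x (fanR c d x y j) x (Y j) = none := by
    intro j; rw [recolAt_left]; unfold fanR; rw [if_pos rfl]
  have hcov1 : ∀ j, ∀ v, v ≠ Y j → (c x v ≠ none ∨ v = y) → fanR c d x y j v ≠ none := by
    intro j v hv h
    unfold fanR
    rw [if_neg hv]
    split_ifs with h2
    · simp
    · rcases h with h | h
      · exact h
      · exfalso
        cases j with
        | zero => exact hv h
        | succ m => exact h2 ⟨0, by omega, h⟩
  have hcov : ∀ j ≤ k, ∀ u v, Cov c x y u v →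
      Cov (recolAt c x (fanR c d x y j)) x (Y j) u v := by
    intro j hj u v h
    by_cases hu : u = x
    · subst hu
      by_cases hv : v = Y j
      · exact Or.inr (Or.inl ⟨rfl, hv⟩)
      · left; rw [recolAt_left]
        refine hcov1 j v hv ?_
        rcases h with h | h | h
        · exact Or.inl h
        · exact Or.inr h.2
        · exact absurd h.1 hxy.ne
    · by_cases hv : v = x
      · subst hv
        by_cases hu' : u = Y j
        · exact Or.inr (Or.inr ⟨hu', rfl⟩)
        · left; rw [(hprop j hj).symm, recolAt_left]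
          refine hcov1 j u hu' ?_
          rcases h with h | h | h
          · left; rwa [hc.symm]
          · exact absurd h.1 hu
          · exact Or.inr h.1
      · left; rw [recolAt_off _ hu hv]
        rcases h with h | h | h
        · exact h
        · exact absurd h.1 hu
        · exact absurd h.2 hv
  have hmissx : ∀ j ≤ k, ∀ g, Miss c x g → Miss (recolAt c x (fanR c d x y j)) x g := by
    intro j hj g hg v hv
    rw [recolAt_left] at hv
    rcases fanR_some hv with ⟨i, hi, rfl, rfl⟩ | ⟨h1, _⟩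
    · exact hg _ (hedge i (by omega))
    · exact hg _ h1
  have hmissz : ∀ j ≤ k, ∀ g, Miss c (Y j) g → Miss (recolAt c x (fanR c d x y j)) (Y j) g := by
    intro j hj g hg v hv
    by_cases h : v = x
    · subst h
      rw [(hprop j hj).symm, hnone] at hv; cases hv
    · rw [recolAt_off _ (hadj j hj).ne.symm h] at hv
      exact hg _ hv
  have hoff : ∀ j, ∀ u v, u ≠ x → v ≠ x → recolAt c x (fanR c d x y j) u v = c u v :=
    fun j u v hu hv => recolAt_off _ hu hv
  by_cases hA : Miss c x (d (Y k))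
  · exact ⟨_, Y k, d (Y k), hprop k le_rfl, hoff k, hadj k le_rfl, hnone k, hcov k le_rfl,
      hmissx k le_rfl, hd _, hmissz k le_rfl _ (hd _), Or.inl hA⟩
  by_cases hC : P (d (Y k))
  · refine ⟨_, Y k, d (Y k), hprop k le_rfl, hoff k, hadj k le_rfl, hnone k, hcov k le_rfl,
      hmissx k le_rfl, hd _, hmissz k le_rfl _ (hd _), Or.inr (Or.inr ⟨hC, ?_, ?_⟩)⟩
    · intro h
      rw [h, hdy] at hC; exact hP0 hC
    · intro s a ha h
      rw [recolAt_left] at h
      rcases fanR_some h with ⟨i, hi, rfl, rfl⟩ | ⟨h1, _⟩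
      · exact absurd (Or.inr (Or.inl ha)) (hns i hi)
      · exact h1
  obtain ⟨i, hi, hik⟩ : ∃ i < k, d (Y i) = d (Y k) := (hstop.resolve_left hA).resolve_left hC
  set δ := d (Y k) with hδ
  by_cases hB : Conn c γ δ (Y i) x
  · -- use the full fan
    refine ⟨_, Y k, δ, hprop k le_rfl, hoff k, hadj k le_rfl, hnone k, hcov k le_rfl,
      hmissx k le_rfl, hd _, hmissz k le_rfl _ (hd _), Or.inr (Or.inl ⟨hC, hA, ?_⟩)⟩
    have hnx : ¬ Conn c γ δ (Y k) x := by
      intro h
      have := hc.ends (α := γ) (β := δ) (z := x) (Or.inl hγ) (hc.conn_symm hB) (hc.conn_symm h)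
        (Or.inr (hik ▸ hd _)) (Or.inr (hd _))
      rcases this with h1 | h1 | h1
      · exact (hadj i hi.le).ne h1
      · exact (hadj k le_rfl).ne h1
      · exact hYinj i k hi le_rfl h1
    intro h
    apply hnx
    refine h.mem_of_closed (fun s => Conn c γ δ (Y k) s) Conn.refl ?_
    intro s t hs hst
    have hsx : s ≠ x := by rintro rfl; exact hnx hs
    by_cases ht : t = x
    · exfalso
      subst ht
      have hst' := (hprop k le_rfl).kadj_symm hst
      rcases hst' with h1 | h1
      · exact hmissx k le_rfl γ hγ _ h1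
      · rw [recolAt_left] at h1
        rcases fanR_some h1 with ⟨l, hl, rfl, hla⟩ | ⟨h2, h3⟩
        · have : l = i := hdinj' l i hl hi (hla.symm.trans hik.symm)
          subst this
          exact hnx (hs.trans hB)
        · have h4 := hedge i hi
          rw [hik] at h4
          exact h3 (i + 1) hi (hc.inj _ _ _ _ h2 h4)
    · refine hs.tail ?_
      unfold Kadj at hst ⊢
      rwa [hoff k s t hsx ht] at hst
  · -- use the shorter fan
    refine ⟨_, Y i, δ, hprop i hi.le, hoff i, hadj i hi.le, hnone i, hcov i hi.le,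
      hmissx i hi.le, hik ▸ hd _, hmissz i hi.le _ (hik ▸ hd _), Or.inr (Or.inl ⟨hC, hA, ?_⟩)⟩
    intro h
    apply hB
    refine h.mem_of_closed (fun s => Conn c γ δ (Y i) s) Conn.refl ?_
    intro s t hs hst
    have hsx : s ≠ x := by rintro rfl; exact hB hs
    by_cases ht : t = x
    · exfalso
      subst ht
      have hst' := (hprop i hi.le).kadj_symm hst
      rcases hst' with h1 | h1
      · exact hmissx i hi.le γ hγ _ h1
      · rw [recolAt_left] at h1
        rcases fanR_some h1 with ⟨l, hl, rfl, hla⟩ | ⟨h2, _⟩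
        · exact hdinj l i hl hi (hla.symm.trans hik.symm)
        · exact hB (hs.tail (Or.inr (by rw [hc.symm]; exact h2)))
    · refine hs.tail ?_
      unfold Kadj at hst ⊢
      rwa [hoff i s t hsx ht] at hst

end Pool.Agent.Work.MP_20d0cc_lc
end

-- merged part: Pool.Agent.Work.MP_20d0cc_lc.Extend
section
/-! Colouring one more edge without touching a far away finite set of vertices. -/

set_option autoImplicit false

namespace Pool.Agent.Work.MP_20d0cc_lc

open Classical

variable {V C : Type*} {G : SimpleGraph V} {c : V → V → Option C}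

theorem exists_miss [Fintype C] (hc : Proper G c) (nb : V → Finset V)
    (hnb : ∀ u v, G.Adj u v → v ∈ nb u) (hcard : ∀ u, (nb u).card < Fintype.card C) (x : V) :
    ∃ a, Miss c x a := by
  by_contra h
  push Not at h
  have h1 : (Finset.univ : Finset C).card ≤ (nb x).card := by
    refine Finset.card_le_card_of_injOn (fun a => nxt c a x) ?_ ?_
    · intro a _
      exact hnb _ _ (hc.adj _ _ _ (nxt_spec (h a)))
    · intro a _ b _ hab
      have h1 := nxt_spec (h a)
      have h2 := nxt_spec (h b)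
      simp only at hab
      rw [hab, h2] at h1
      exact (Option.some.inj h1).symm
  have := hcard x
  rw [Finset.card_univ] at h1
  omega

theorem exists_miss_ne [Fintype C] (hc : Proper G c) (nb : V → Finset V)
    (hnb : ∀ u v, G.Adj u v → v ∈ nb u) (hcard : ∀ u, (nb u).card < Fintype.card C) {x y : V}
    (hxy : G.Adj x y) (hn : c x y = none) (b : C) : ∃ a, a ≠ b ∧ Miss c x a := by
  by_contra h
  push Not at h
  have h1 : (Finset.univ : Finset C).card ≤ (nb x).card := by
    refine Finset.card_le_card_of_injOn (fun a => if a = b then y else nxt c a x) ?_ ?_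
    · intro a _
      by_cases ha : a = b
      · simp only [ha, if_true]; exact hnb _ _ hxy
      · simp only [ha, if_false]; exact hnb _ _ (hc.adj _ _ _ (nxt_spec (h a ha)))
    · intro a _ a' _ hab
      simp only at hab
      by_cases ha : a = b <;> by_cases ha' : a' = b
      · rw [ha, ha']
      · rw [if_pos ha, if_neg ha'] at hab
        have h2 := nxt_spec (h a' ha')
        rw [← hab, hn] at h2; cases h2
      · rw [if_neg ha, if_pos ha'] at hab
        have h2 := nxt_spec (h a ha)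
        rw [hab, hn] at h2; cases h2
      · rw [if_neg ha, if_neg ha'] at hab
        have h1 := nxt_spec (h a ha)
        have h2 := nxt_spec (h a' ha')
        rw [hab, h2] at h1
        exact (Option.some.inj h1).symm
  have := hcard x
  rw [Finset.card_univ] at h1
  omega

/-- the radius needed to stay away from `w` frozen vertices with `q` colours. -/
def rad (q w : ℕ) : ℕ := (2 * q * q * (w + 1) + w) * q + 2

/-- a finite set containing all ends of Kempe components through `T`. -/
theorem exists_endset [Fintype C] (hc : Proper G c) (T : Finset V) :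
    ∃ B : Finset V, B.card ≤ 2 * Fintype.card C * Fintype.card C * T.card ∧
      ∀ w ∈ T, ∀ α β v, Conn c α β w v → IsEnd c α β v → v ∈ B := by
  choose s hs1 hs2 using hc.ends_finset
  refine ⟨(T ×ˢ ((Finset.univ : Finset C) ×ˢ (Finset.univ : Finset C))).biUnion
    (fun p => s p.2.1 p.2.2 p.1), ?_, ?_⟩
  · refine (Finset.card_biUnion_le_card_mul _ _ 2 (fun p _ => hs1 _ _ _)).trans ?_
    simp only [Finset.card_product, Finset.card_univ]
    apply le_of_eq; ring
  · intro w hw α β v hv ev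
    rw [Finset.mem_biUnion]
    exact ⟨(w, α, β), by simp [hw], hs2 _ _ _ _ hv ev⟩

theorem exists_nbhd {q : ℕ} (nb : V → Finset V) (hnb : ∀ u v, G.Adj u v → v ∈ nb u)
    (hcard : ∀ u, (nb u).card < q) (T : Finset V) :
    ∃ N : Finset V, N.card ≤ T.card * q ∧ (∀ w ∈ T, w ∈ N) ∧ ∀ w ∈ T, ∀ u, G.Adj u w → u ∈ N := by
  refine ⟨T.biUnion (fun w => insert w (nb w)), ?_, ?_, ?_⟩
  · refine Finset.card_biUnion_le_card_mul _ _ q (fun w _ => ?_)
    exact (Finset.card_insert_le _ _).trans (hcard w)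
  · intro w hw
    rw [Finset.mem_biUnion]; exact ⟨w, hw, Finset.mem_insert_self _ _⟩
  · intro w hw u hu
    rw [Finset.mem_biUnion]; exact ⟨w, hw, Finset.mem_insert_of_mem (hnb _ _ hu.symm)⟩

/-- The second step: after moving the uncoloured edge along the first chain. -/
theorem second_step [Fintype C] {ψ : V → V → Option C} (hψ : Proper G ψ) (nb : V → Finset V)
    (hnb : ∀ u v, G.Adj u v → v ∈ nb u) (hcard : ∀ u, (nb u).card < Fintype.card C)
    (W : Finset V) {x z : V} {α β : C} (B : Finset V)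
    (hB : ∀ w, (w ∈ W ∨ w = x) → ∀ α β v, Conn ψ α β w v → IsEnd ψ α β v → v ∈ B)
    {w0 : V} (hw0 : w0 ∈ W) (hzw : Conn ψ α β z w0)
    {ψ3 : V → V → Option C} (h3 : Proper G ψ3) {u v : V} (huv : G.Adj u v)
    (hn : ψ3 u v = none) {a b : C} (hab : (a = α ∧ b = β) ∨ (a = β ∧ b = α))
    (hub : Miss ψ3 u b) (hva : Miss ψ3 v a) (huK : Conn ψ α β z u)
    (huW : u ∉ W) (huN : ∀ s, G.Adj u s → s ∉ B ∧ s ∉ W)
    (F1 : ∀ s t g, g ≠ α → g ≠ β → (ψ3 s t = some g ↔ ψ s t = some g))
    (F2 : ∀ s, ¬ Conn ψ α β z s → s ≠ x → ∀ t, ψ3 s t = ψ s t)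
    (F3 : ∀ s, s ≠ u → s ≠ v → IsEnd ψ3 α β s → IsEnd ψ α β s) :
    ∃ c' : V → V → Option C, Proper G c' ∧ (∀ s t, Cov ψ3 u v s t → c' s t ≠ none) ∧
      ∀ w ∈ W, ∀ t, c' w t = ψ3 w t := by
  by_cases hua : Miss ψ3 u a
  · obtain ⟨c', p1, p2, p3⟩ := h3.augment huv hua hva
      (fun h => huv.ne (conn_self_of_miss hva h))
    refine ⟨c', p1, p2, fun w hw t => p3 w ?_ ?_ t⟩
    · intro h
      have := conn_self_of_miss hva h
      exact (huN v huv).2 (this ▸ hw)
    · rintro rfl; exact huW hw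
  obtain ⟨γ, hγb, hγ⟩ := exists_miss_ne h3 nb hnb hcard huv hn b
  obtain ⟨d0, hd0a, hd0⟩ := exists_miss_ne h3 nb hnb hcard huv.symm (by rw [h3.symm, hn]) a
  have hγa : γ ≠ a := by rintro rfl; exact hua hγ
  obtain ⟨χ, z', δ, hχ, hoff, hadj, hnone, hcov, hmx, hmz, hmz', hcase⟩ :=
    fan h3 (exists_miss h3 nb hnb hcard) huv hn (fun g => g = a) hd0 hd0a hγ
  have hz'B := (huN z' hadj).1
  have hz'W := (huN z' hadj).2
  have hχW : ∀ w ∈ W, ∀ t, χ w t = ψ3 w t := by
    intro w hw t
    have hwu : w ≠ u := by rintro rfl; exact huW hw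
    by_cases ht : t = u
    · subst ht
      have hna : ¬ G.Adj w t := fun h => (huN w h.symm).2 hw
      have e1 : χ w t = none := by
        cases h : χ w t with
        | none => rfl
        | some g => exact absurd (hχ.adj _ _ _ h) hna
      have e2 : ψ3 w t = none := by
        cases h : ψ3 w t with
        | none => rfl
        | some g => exact absurd (h3.adj _ _ _ h) hna
      rw [e1, e2]
    · exact hoff w t hwu ht
  -- it suffices to find a good pair of colours
  suffices H : ∃ g d, Miss χ u g ∧ Miss χ z' d ∧ ¬ Conn χ g d z' u ∧ ∀ w ∈ W, ¬ Conn χ g d z' w by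
    obtain ⟨g, d, m1, m2, m3, m4⟩ := H
    obtain ⟨c', p1, p2, p3⟩ := hχ.augment hadj m1 m2 m3
    refine ⟨c', p1, fun s t h => p2 s t (hcov s t h), fun w hw t => ?_⟩
    rw [p3 w (m4 w hw) (by rintro rfl; exact huW hw) t, hχW w hw t]
  rcases hcase with hA | ⟨hδa, hδu, hB'⟩ | ⟨hδa, hz'v, hP⟩
  · refine ⟨δ, δ, hmx _ hA, hmz', fun h => hadj.ne (conn_self_of_miss hmz' h), ?_⟩
    intro w hw h
    have := conn_self_of_miss hmz' h
    exact hz'W (this ▸ hw)
  · have hδb : δ ≠ b := by rintro rfl; exact hδu hub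
    have hγα : γ ≠ α := by rcases hab with ⟨rfl, rfl⟩ | ⟨rfl, rfl⟩ <;> assumption
    have hγβ : γ ≠ β := by rcases hab with ⟨rfl, rfl⟩ | ⟨rfl, rfl⟩ <;> assumption
    have hδα : δ ≠ α := by rcases hab with ⟨rfl, rfl⟩ | ⟨rfl, rfl⟩ <;> assumption
    have hδβ : δ ≠ β := by rcases hab with ⟨rfl, rfl⟩ | ⟨rfl, rfl⟩ <;> assumption
    refine ⟨γ, δ, hmx _ hγ, hmz', hB', ?_⟩
    intro w hw h
    have key : Conn χ γ δ z' w ∧ Conn ψ γ δ z' w := by
      refine h.mem_of_closed (fun s => Conn χ γ δ z' s ∧ Conn ψ γ δ z' s)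
        ⟨Conn.refl, Conn.refl⟩ ?_
      rintro s t ⟨hs1, hs2⟩ hst
      have ht1 := hs1.tail hst
      refine ⟨ht1, hs2.tail ?_⟩
      have hsu : s ≠ u := by rintro rfl; exact hB' hs1
      have htu : t ≠ u := by rintro rfl; exact hB' ht1
      unfold Kadj at hst ⊢
      rwa [hoff s t hsu htu, F1 s t γ hγα hγβ, F1 s t δ hδα hδβ] at hst
    refine hz'B (hB w (Or.inl hw) γ δ z' (hψ.conn_symm key.2) (Or.inr ?_))
    intro t ht
    exact hmz t ((F1 z' t δ hδα hδβ).2 ht)
  · subst hδa
    have hkadj : ∀ (e : V → V → Option C) s t, Kadj e b δ s t ↔ Kadj e α β s t := by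
      intro e s t
      rcases hab with ⟨rfl, rfl⟩ | ⟨rfl, rfl⟩
      · exact kadj_comm
      · rfl
    have hend3 : IsEnd ψ3 α β z' := by
      rcases hab with ⟨rfl, rfl⟩ | ⟨rfl, rfl⟩
      · exact Or.inl hmz
      · exact Or.inr hmz
    have hend : IsEnd ψ α β z' := F3 z' hadj.ne.symm hz'v hend3
    have hR1 : ∀ s, Conn ψ α β z' s → s ∉ W ∧ s ≠ x := by
      intro s hs
      constructor
      · intro h; exact hz'B (hB s (Or.inl h) α β z' (hψ.conn_symm hs) hend)
      · intro h; exact hz'B (hB s (Or.inr h) α β z' (hψ.conn_symm hs) hend)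
    have hR2 : ∀ s, Conn ψ α β z' s → ¬ Conn ψ α β z s := by
      intro s hs h
      exact (hR1 w0 ((hs.trans (hψ.conn_symm h)).trans hzw)).1 hw0
    have hR3 : ∀ s, Conn χ b δ z' s → Conn ψ α β z' s := by
      intro s hs
      refine hs.mem_of_closed (fun s => Conn ψ α β z' s) Conn.refl ?_
      intro s t hs hst
      have hsu : s ≠ u := by rintro rfl; exact hR2 _ hs huK
      have hF := F2 s (hR2 s hs) (hR1 s hs).2
      by_cases ht : t = u
      · exfalso
        subst ht
        rcases hχ.kadj_symm hst with h1 | h1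
        · exact hmx b hub _ h1
        · have h2 := hP s δ rfl h1
          rw [h3.symm, hF] at h2
          have h4 : Kadj ψ b δ s t := Or.inr h2
          exact hR2 _ (hs.tail ((hkadj _ _ _).1 h4)) huK
      · refine hs.tail ((hkadj _ _ _).1 ?_)
        unfold Kadj at hst ⊢
        rwa [hoff s t hsu ht, hF] at hst
    exact ⟨b, δ, hmx _ hub, hmz', fun h => hR2 _ (hR3 _ h) huK,
      fun w hw h => (hR1 w (hR3 w h)).1 hw⟩

theorem extend_one [Fintype C] (hc : Proper G c) (nb : V → Finset V)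
    (hnb : ∀ u v, G.Adj u v → v ∈ nb u) (hcard : ∀ u, (nb u).card < Fintype.card C)
    (W : Finset V) (Ball : ℕ → V → Prop) (hB0 : ∀ w ∈ W, Ball 0 w)
    (hBs : ∀ k u v, Ball k v → G.Adj u v → Ball (k + 1) u) {x y : V} (hxy : G.Adj x y)
    (hn : c x y = none) (hfar : ∀ k ≤ rad (Fintype.card C) W.card, ¬ Ball k x) :
    ∃ c' : V → V → Option C, Proper G c' ∧ (∀ s t, Cov c x y s t → c' s t ≠ none) ∧
      ∀ w ∈ W, ∀ t, c' w t = c w t := by
  have hrad : 2 ≤ rad (Fintype.card C) W.card := by unfold rad; omega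
  have hxW : x ∉ W := fun h => hfar 0 (by omega) (hB0 x h)
  have hxN : ∀ s, G.Adj x s → s ∉ W := fun s hs h => hfar 1 (by omega) (hBs 0 _ _ (hB0 s h) hs)
  have hmiss := exists_miss hc nb hnb hcard
  obtain ⟨γ, hγ⟩ := hmiss x
  obtain ⟨d0, hd0⟩ := hmiss y
  obtain ⟨ψ, z, β, hψ, hoff, hadj, hnone, hcov, hmx, -, hzβ, hcase⟩ :=
    fan hc hmiss hxy hn (fun _ => False) hd0 not_false hγ
  obtain ⟨α, hxα, hzx⟩ : ∃ α, Miss ψ x α ∧ ¬ Conn ψ α β z x := by
    rcases hcase with h | h | h
    · exact ⟨β, hmx _ h, fun h' => hadj.ne (conn_self_of_miss hzβ h')⟩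
    · exact ⟨γ, hmx _ hγ, h.2.2⟩
    · exact absurd h.1 not_false
  have hψW : ∀ w ∈ W, ∀ t, ψ w t = c w t := by
    intro w hw t
    have hwu : w ≠ x := by rintro rfl; exact hxW hw
    by_cases ht : t = x
    · subst ht
      have hna : ¬ G.Adj w t := fun h => hxN w h.symm hw
      have e1 : ψ w t = none := by
        cases h : ψ w t with
        | none => rfl
        | some g => exact absurd (hψ.adj _ _ _ h) hna
      have e2 : c w t = none := by
        cases h : c w t with
        | none => rfl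
        | some g => exact absurd (hc.adj _ _ _ h) hna
      rw [e1, e2]
    · exact hoff w t hwu ht
  suffices H : ∃ c' : V → V → Option C, Proper G c' ∧ (∀ s t, Cov ψ x z s t → c' s t ≠ none) ∧
      ∀ w ∈ W, ∀ t, c' w t = ψ w t by
    obtain ⟨c', p1, p2, p3⟩ := H
    exact ⟨c', p1, fun s t h => p2 s t (hcov s t h), fun w hw t => by rw [p3 w hw t, hψW w hw t]⟩
  by_cases hW : ∀ w ∈ W, ¬ Conn ψ α β z w
  · obtain ⟨c', p1, p2, p3⟩ := hψ.augment hadj hxα hzβ hzx
    exact ⟨c', p1, p2, fun w hw t => p3 w (hW w hw) (by rintro rfl; exact hxW hw) t⟩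
  push Not at hW
  obtain ⟨w0, hw0, hzw⟩ := hW
  have hαβ : α ≠ β := by
    rintro rfl
    exact hxN z hadj (conn_self_of_miss hzβ hzw ▸ hw0)
  obtain ⟨j, hj, hwj⟩ := hψ.conn_live hzβ hzw
  set p := pth ψ α β z with hp
  have hex : ∃ t, p t ∈ W := ⟨j, hwj ▸ hw0⟩
  set t := Nat.find hex with ht
  have htW : p t ∈ W := Nat.find_spec hex
  have htmin : ∀ i < t, p i ∉ W := fun i hi => Nat.find_min hex hi
  have hlive : Live ψ α β z t := hj.mono (Nat.find_min' hex (hwj ▸ hw0))
  have hball : ∀ k ≤ t, Ball k (p (t - k)) := by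
    intro k hk
    induction k with
    | zero => exact hB0 _ htW
    | succ k ih =>
      refine hBs k _ _ (ih (by omega)) ?_
      have := hψ.adj _ _ _ (hlive (t - (k + 1)) (by omega))
      have e : t - (k + 1) + 1 = t - k := by omega
      rwa [e] at this
  have htbig : rad (Fintype.card C) W.card < t + 1 := by
    by_contra h
    have h1 := hball t le_rfl
    rw [Nat.sub_self] at h1
    exact hfar (t + 1) (by omega) (hBs t x z h1 hadj)
  obtain ⟨B, hBc, hB⟩ := exists_endset hψ (insert x W)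
  obtain ⟨N, hNc, hN1, hN2⟩ := exists_nbhd nb hnb hcard (B ∪ W)
  have hNt : N.card < t := by
    have h1 : (insert x W).card ≤ W.card + 1 := Finset.card_insert_le _ _
    have h2 : (B ∪ W).card ≤ B.card + W.card := Finset.card_union_le _ _
    have h3 : B.card ≤ 2 * Fintype.card C * Fintype.card C * (W.card + 1) :=
      hBc.trans (Nat.mul_le_mul_left _ h1)
    have h4 : (B ∪ W).card * Fintype.card C ≤
        (2 * Fintype.card C * Fintype.card C * (W.card + 1) + W.card) * Fintype.card C :=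
      Nat.mul_le_mul_right _ (by omega)
    unfold rad at htbig
    omega
  obtain ⟨i, hit, hiN⟩ : ∃ i < t, p i ∉ N := by
    by_contra h
    push Not at h
    have : (Finset.range t).card ≤ N.card := by
      refine Finset.card_le_card_of_injOn p ?_ ?_
      · intro i hi; exact h i (Finset.mem_range.1 hi)
      · intro i hi k hk hik
        have hi' : i < t := Finset.mem_range.1 hi
        have hk' : k < t := Finset.mem_range.1 hk
        rcases lt_trichotomy i k with h1 | h1 | h1
        · exact absurd hik (hψ.pth_inj hαβ hzβ k (hlive.mono hk'.le) i h1)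
        · exact h1
        · exact absurd hik.symm (hψ.pth_inj hαβ hzβ i (hlive.mono hi'.le) k h1)
    rw [Finset.card_range] at this
    omega
  have hB' : ∀ w, (w ∈ W ∨ w = x) → ∀ α β v, Conn ψ α β w v → IsEnd ψ α β v → v ∈ B := by
    intro w hw
    apply hB
    rcases hw with h | h
    · exact Finset.mem_insert_of_mem h
    · rw [h]; exact Finset.mem_insert_self _ _
  have hxB : x ∈ B := hB' x (Or.inr rfl) α β x Conn.refl (Or.inl hxα)
  have hzB : z ∈ B := hB' w0 (Or.inl hw0) α β z (hψ.conn_symm hzw) (Or.inr hzβ)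
  set u := p i with hu
  set v := p (i + 1) with hv
  have huv' : ψ u v = some (col α β i) := hlive i hit
  have huv : G.Adj u v := hψ.adj _ _ _ huv'
  have huN : ∀ s, G.Adj u s → s ∉ B ∧ s ∉ W := by
    intro s hs
    exact ⟨fun h => hiN (hN2 s (Finset.mem_union_left _ h) u hs),
      fun h => hiN (hN2 s (Finset.mem_union_right _ h) u hs)⟩
  have huB : u ∉ B := fun h => hiN (hN1 u (Finset.mem_union_left _ h))
  have huW : u ∉ W := fun h => hiN (hN1 u (Finset.mem_union_right _ h))
  have hux : u ≠ x := by intro h; exact huB (h ▸ hxB)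
  have huz : u ≠ z := by intro h; exact huB (h ▸ hzB)
  have hvx : v ≠ x := by intro h; exact (huN v huv).1 (h ▸ hxB)
  have hvz : v ≠ z := by intro h; exact (huN v huv).1 (h ▸ hzB)
  have hK : ∀ k ≤ t, Conn ψ α β z (p k) := fun k hk => (hlive.mono hk).conn
  let S : V → Prop := fun s => ∃ k ≤ i, s = p k
  have hSK : ∀ s, S s → Conn ψ α β z s := by
    rintro s ⟨k, hk, rfl⟩; exact hK k (by omega)
  have hSu : S u := ⟨i, le_rfl, rfl⟩
  have hSz : S z := ⟨0, Nat.zero_le _, rfl⟩
  have hSv : ¬ S v := by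
    rintro ⟨k, hk, h⟩
    exact hψ.pth_inj hαβ hzβ (i + 1) (hlive.mono hit) k (by omega) h.symm
  have hSx : ¬ S x := fun h => hzx (hSK x h)
  have hSW : ∀ w ∈ W, ¬ S w := by
    rintro w hw ⟨k, hk, rfl⟩; exact htmin k (by omega) hw
  set ψ1 := setEdge ψ u v none with hψ1
  have h1 : Proper G ψ1 := hψ.setEdge huv none (fun a ha => by cases ha)
  have hψ1some : ∀ s t g, ψ1 s t = some g → ψ s t = some g := by
    intro s t g h
    by_cases h' : (s = u ∧ t = v) ∨ (s = v ∧ t = u)
    · rw [hψ1, setEdge_of_eq _ h'] at h; cases h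
    · rwa [hψ1, setEdge_of_ne _ h'] at h
  have hSc : ∀ s t', S s → Kadj ψ1 α β s t' → S t' := by
    rintro s t' ⟨k, hk, rfl⟩ hst
    have hst' : Kadj ψ α β (p k) t' := hst.imp (hψ1some _ _ _) (hψ1some _ _ _)
    rcases hψ.nbr_pth hzβ (hlive.mono (by omega : k ≤ t)) hst' with ⟨h2, _⟩ | ⟨l, rfl, h2⟩
    · rcases hk.lt_or_eq with h4 | h4
      · exact ⟨k + 1, h4, h2⟩
      · exfalso
        subst h4
        have : ψ1 u t' = none := by rw [h2]; exact setEdge_self _ _ _
        rcases hst with h5 | h5 <;> rw [this] at h5 <;> cases h5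
    · exact ⟨l, by omega, h2⟩
  set ψ2 := swapOn ψ1 α β S with hψ2
  have h2 : Proper G ψ2 := h1.swapOn hSc
  have hm1 : ∀ s g, Miss ψ s g → Miss ψ1 s g := fun s g h t' ht' => h t' (hψ1some _ _ _ ht')
  have hx2 : Miss ψ2 x α := (miss_swapOn_not hSx).2 (hm1 _ _ hxα)
  have hz2 : Miss ψ2 z α := (miss_swapOn_left hSz).2 (hm1 _ _ hzβ)
  set ψ3 := setEdge ψ2 x z (some α) with hψ3
  have h3 : Proper G ψ3 := h2.setEdge hadj _ (fun a ha => by
    obtain rfl : α = a := Option.some.inj ha
    exact ⟨hx2, hz2⟩)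
  have hu1 : Miss ψ1 u (col α β i) := by
    intro t' ht'
    have h4 := hψ.inj _ _ _ _ (hψ1some _ _ _ ht') huv'
    rw [h4, hψ1, setEdge_self] at ht'; cases ht'
  have hv1 : Miss ψ1 v (col α β i) := by
    intro t' ht'
    have h4 := hψ.inj _ _ _ _ (hψ1some _ _ _ ht') (by rw [hψ.symm]; exact huv')
    rw [h4, h1.symm, hψ1, setEdge_self] at ht'; cases ht'
  have hub : Miss ψ3 u (col α β (i + 1)) := by
    intro t'
    rw [hψ3, setEdge_off _ hux huz]
    rcases col_cases α β i with h4 | h4
    · rw [h4.2]; rw [h4.1] at hu1; exact (miss_swapOn_right hSu).2 hu1 t'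
    · rw [h4.2]; rw [h4.1] at hu1; exact (miss_swapOn_left hSu).2 hu1 t'
  have hva : Miss ψ3 v (col α β i) := by
    intro t'
    rw [hψ3, setEdge_off _ hvx hvz]
    exact (miss_swapOn_not hSv).2 hv1 t'
  have hn3 : ψ3 u v = none := by
    rw [hψ3, setEdge_off _ hux huz, hψ2, swapOn_eq_none, hψ1, setEdge_self]
  have hcα : col α β i = α ∨ col α β i = β := (col_cases α β i).imp And.left And.left
  have F1 : ∀ s t g, g ≠ α → g ≠ β → (ψ3 s t = some g ↔ ψ s t = some g) := by
    intro s t' g hg1 hg2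
    by_cases h' : (s = x ∧ t' = z) ∨ (s = z ∧ t' = x)
    · rw [hψ3, setEdge_of_eq _ h']
      have : ψ s t' = none := by
        rcases h' with ⟨rfl, rfl⟩ | ⟨rfl, rfl⟩
        · exact hnone
        · rw [hψ.symm]; exact hnone
      rw [this]
      simp [hg1.symm]
    · rw [hψ3, setEdge_of_ne _ h', hψ2, swapOn_other hg1 hg2]
      by_cases h'' : (s = u ∧ t' = v) ∨ (s = v ∧ t' = u)
      · rw [hψ1, setEdge_of_eq _ h'']
        have : ψ s t' = some (col α β i) := by
          rcases h'' with ⟨rfl, rfl⟩ | ⟨rfl, rfl⟩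
          · exact huv'
          · rw [hψ.symm]; exact huv'
        rw [this]
        rcases hcα with h4 | h4 <;> rw [h4] <;> simp [hg1.symm, hg2.symm]
      · rw [hψ1, setEdge_of_ne _ h'']
  have F2 : ∀ s, ¬ Conn ψ α β z s → s ≠ x → ∀ t, ψ3 s t = ψ s t := by
    intro s hs hsx t'
    have e2 : s ≠ z := by rintro rfl; exact hs Conn.refl
    have e3 : s ≠ u := by rintro rfl; exact hs (hK i hit.le)
    have e4 : s ≠ v := by rintro rfl; exact hs (hK (i + 1) hit)
    rw [hψ3, setEdge_off _ hsx e2, hψ2, swapOn_of_not (fun h => hs (hSK s h)), hψ1,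
      setEdge_off _ e3 e4]
  have F3 : ∀ s, s ≠ u → s ≠ v → IsEnd ψ3 α β s → IsEnd ψ α β s := by
    intro s hsu hsv hs
    by_cases e1 : s = x
    · rw [e1]; exact Or.inl hxα
    by_cases e2 : s = z
    · rw [e2]; exact Or.inr hzβ
    have e3 : IsEnd ψ2 α β s := by
      unfold IsEnd Miss at hs ⊢
      simpa only [hψ3, setEdge_off _ e1 e2] using hs
    have e4 : IsEnd ψ1 α β s := isEnd_swapOn.1 e3
    unfold IsEnd Miss at e4 ⊢
    simpa only [hψ1, setEdge_off _ hsu hsv] using e4
  obtain ⟨c', p1, p2, p3⟩ := second_step hψ nb hnb hcard W B hB' hw0 hzw h3 huv hn3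
    (col_cases α β i) hub hva (hK i hit.le) huW huN F1 F2 F3
  · refine ⟨c', p1, fun s t' h => p2 s t' ?_, fun w hw t' => ?_⟩
    · by_cases h' : (s = x ∧ t' = z) ∨ (s = z ∧ t' = x)
      · left; rw [hψ3, setEdge_of_eq _ h']; simp
      · by_cases h'' : (s = u ∧ t' = v) ∨ (s = v ∧ t' = u)
        · exact Or.inr h''
        · left
          rw [hψ3, setEdge_of_ne _ h', hψ2, ne_eq, swapOn_eq_none, hψ1, setEdge_of_ne _ h'']
          exact h.resolve_right h'
    · have e1 : w ≠ x := by rintro rfl; exact hxW hw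
      have e2 : w ≠ z := by rintro rfl; exact hxN _ hadj hw
      have e3 : w ≠ u := by rintro rfl; exact huW hw
      have e4 : w ≠ v := by rintro rfl; exact (huN _ huv).2 hw
      rw [p3 w hw t', hψ3, setEdge_off _ e1 e2, hψ2, swapOn_of_not (hSW w hw), hψ1,
        setEdge_off _ e3 e4]

theorem extend_many [Fintype C] (hc : Proper G c) (nb : V → Finset V)
    (hnb : ∀ u v, G.Adj u v → v ∈ nb u) (hcard : ∀ u, (nb u).card < Fintype.card C)
    (W : Finset V) (Ball : ℕ → V → Prop) (hB0 : ∀ w ∈ W, Ball 0 w)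
    (hBs : ∀ k u v, Ball k v → G.Adj u v → Ball (k + 1) u)
    (hcol : ∀ k ≤ rad (Fintype.card C) W.card, ∀ x y, Ball k x → G.Adj x y → c x y ≠ none)
    (E : Finset (V × V)) :
    ∃ c' : V → V → Option C, Proper G c' ∧ (∀ s t, c s t ≠ none → c' s t ≠ none) ∧
      (∀ e ∈ E, G.Adj e.1 e.2 → c' e.1 e.2 ≠ none) ∧ ∀ w ∈ W, ∀ t, c' w t = c w t := by
  induction E using Finset.induction_on with
  | empty => exact ⟨c, hc, fun _ _ h => h, by simp, fun _ _ _ => rfl⟩
  | insert e E _ ih =>
    obtain ⟨c1, p1, p2, p3, p4⟩ := ih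
    by_cases h : G.Adj e.1 e.2 ∧ c1 e.1 e.2 = none
    · obtain ⟨c2, q1, q2, q3⟩ := extend_one p1 nb hnb hcard W Ball hB0 hBs h.1 h.2
        (fun k hk hb => p2 _ _ (hcol k hk _ _ hb h.1) h.2)
      refine ⟨c2, q1, fun s t hst => q2 s t (Or.inl (p2 s t hst)), ?_,
        fun w hw t => by rw [q3 w hw t, p4 w hw t]⟩
      intro f hf hadj
      rcases Finset.mem_insert.1 hf with rfl | hf
      · exact q2 _ _ (Or.inr (Or.inl ⟨rfl, rfl⟩))
      · exact q2 _ _ (Or.inl (p3 f hf hadj))
    · refine ⟨c1, p1, p2, ?_, p4⟩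
      intro f hf hadj
      rcases Finset.mem_insert.1 hf with rfl | hf
      · exact fun h' => h ⟨hadj, h'⟩
      · exact p3 f hf hadj

end Pool.Agent.Work.MP_20d0cc_lc
end

-- merged part: Pool.Agent.Work.MP_20d0cc_lc.Comp
section
/-! The stagewise computable construction. -/

set_option autoImplicit false

namespace Pool.Agent.Work.MP_20d0cc_lc

open Classical

/-- the table of colours coded by `k`. -/
def cd (k x y : ℕ) : ℕ := (Denumerable.ofNat (List ℕ) k).getD (Nat.pair x y) 0

theorem cd_prim {α : Type} [Primcodable α] {f g h : α → ℕ} (hf : Primrec f) (hg : Primrec g)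
    (hh : Primrec h) : Primrec fun a => cd (f a) (g a) (h a) :=
  (Primrec.list_getD 0).comp ((Primrec.ofNat (List ℕ)).comp hf) (Primrec₂.natPair.comp hg hh)

theorem exists_code (f : ℕ → ℕ → ℕ) (N : ℕ) : ∃ k, ∀ x < N, ∀ y < N, cd k x y = f x y := by
  refine ⟨Encodable.encode ((List.range (N ^ 2)).map fun m => f m.unpair.1 m.unpair.2), ?_⟩
  intro x hx y hy
  have h1 : Nat.pair x y < N ^ 2 := by
    refine (Nat.pair_lt_max_add_one_sq x y).trans_le (Nat.pow_le_pow_left ?_ 2)
    rcases le_total x y with h | h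
    · rw [max_eq_right h]; omega
    · rw [max_eq_left h]; omega
  unfold cd
  rw [Denumerable.ofNat_encode]
  simp [List.getD_eq_getElem?_getD, h1]

/-- `k` codes a proper colouring of the graph below `N`, the graph being given by a table. -/
def GoodT (Δ : ℕ) (q : List (List ℕ) × ℕ × ℕ) : Prop :=
  ∀ x ∈ List.range q.2.1, ∀ y ∈ q.1.getD x [], ∀ z ∈ q.1.getD x [],
    ¬ (y < q.2.1 ∧ z < q.2.1) ∨ (cd q.2.2 x y = cd q.2.2 y x ∧ cd q.2.2 x y ≤ Δ ∧
      (y = z ∨ ¬ cd q.2.2 x y = cd q.2.2 x z))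

theorem goodT_prim (Δ : ℕ) : PrimrecPred (GoodT Δ) := by
  have h0 : PrimrecRel fun (z : ℕ) (b : ℕ × ℕ × (List (List ℕ) × ℕ × ℕ)) =>
      ¬ (b.1 < b.2.2.2.1 ∧ z < b.2.2.2.1) ∨ (cd b.2.2.2.2 b.2.1 b.1 = cd b.2.2.2.2 b.1 b.2.1 ∧
        cd b.2.2.2.2 b.2.1 b.1 ≤ Δ ∧
        (b.1 = z ∨ ¬ cd b.2.2.2.2 b.2.1 b.1 = cd b.2.2.2.2 b.2.1 z)) := by
    have hz : Primrec fun p : ℕ × (ℕ × ℕ × (List (List ℕ) × ℕ × ℕ)) => p.1 := Primrec.fst
    have hy : Primrec fun p : ℕ × (ℕ × ℕ × (List (List ℕ) × ℕ × ℕ)) => p.2.1 :=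
      Primrec.fst.comp Primrec.snd
    have hx : Primrec fun p : ℕ × (ℕ × ℕ × (List (List ℕ) × ℕ × ℕ)) => p.2.2.1 :=
      Primrec.fst.comp (Primrec.snd.comp Primrec.snd)
    have hq : Primrec fun p : ℕ × (ℕ × ℕ × (List (List ℕ) × ℕ × ℕ)) => p.2.2.2.2 :=
      Primrec.snd.comp (Primrec.snd.comp (Primrec.snd.comp Primrec.snd))
    have hN : Primrec fun p : ℕ × (ℕ × ℕ × (List (List ℕ) × ℕ × ℕ)) => p.2.2.2.2.1 :=
      Primrec.fst.comp hq
    have hk : Primrec fun p : ℕ × (ℕ × ℕ × (List (List ℕ) × ℕ × ℕ)) => p.2.2.2.2.2 :=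
      Primrec.snd.comp hq
    exact ((Primrec.nat_lt.comp hy hN).and (Primrec.nat_lt.comp hz hN)).not.or
      ((Primrec.eq.comp (cd_prim hk hx hy) (cd_prim hk hy hx)).and
        ((Primrec.nat_le.comp (cd_prim hk hx hy) (Primrec.const Δ)).and
          ((Primrec.eq.comp hy hz).or
            (Primrec.eq.comp (cd_prim hk hx hy) (cd_prim hk hx hz)).not)))
  have h1 : PrimrecRel fun (y : ℕ) (b : ℕ × (List (List ℕ) × ℕ × ℕ)) =>
      ∀ z ∈ b.2.1.getD b.1 [], ¬ (y < b.2.2.1 ∧ z < b.2.2.1) ∨
        (cd b.2.2.2 b.1 y = cd b.2.2.2 y b.1 ∧ cd b.2.2.2 b.1 y ≤ Δ ∧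
        (y = z ∨ ¬ cd b.2.2.2 b.1 y = cd b.2.2.2 b.1 z)) :=
    h0.forall_mem_list.comp
      ((Primrec.list_getD []).comp (Primrec.fst.comp (Primrec.snd.comp Primrec.snd))
        (Primrec.fst.comp Primrec.snd)) Primrec.id
  have h2 : PrimrecRel fun (x : ℕ) (q : List (List ℕ) × ℕ × ℕ) =>
      ∀ y ∈ q.1.getD x [], ∀ z ∈ q.1.getD x [], ¬ (y < q.2.1 ∧ z < q.2.1) ∨
        (cd q.2.2 x y = cd q.2.2 y x ∧ cd q.2.2 x y ≤ Δ ∧
        (y = z ∨ ¬ cd q.2.2 x y = cd q.2.2 x z)) :=
    h1.forall_mem_list.comp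
      ((Primrec.list_getD []).comp (Primrec.fst.comp Primrec.snd) Primrec.fst) Primrec.id
  exact h2.forall_mem_list.comp (Primrec.list_range.comp (Primrec.fst.comp Primrec.snd))
    Primrec.id

/-- the tables coded by `k` and `k'` agree below `n`. -/
def Agree (q : ℕ × ℕ × ℕ) : Prop :=
  ∀ x ∈ List.range q.1, ∀ y ∈ List.range q.1, cd q.2.1 x y = cd q.2.2 x y

theorem agree_prim : PrimrecPred Agree := by
  have h0 : PrimrecRel fun (y : ℕ) (b : ℕ × (ℕ × ℕ × ℕ)) =>
      cd b.2.2.1 b.1 y = cd b.2.2.2 b.1 y := by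
    have hq : Primrec fun p : ℕ × (ℕ × (ℕ × ℕ × ℕ)) => p.2.2.2 :=
      Primrec.snd.comp (Primrec.snd.comp Primrec.snd)
    exact Primrec.eq.comp
      (cd_prim (Primrec.fst.comp hq) (Primrec.fst.comp Primrec.snd) Primrec.fst)
      (cd_prim (Primrec.snd.comp hq) (Primrec.fst.comp Primrec.snd) Primrec.fst)
  have h1 : PrimrecRel fun (x : ℕ) (q : ℕ × ℕ × ℕ) =>
      ∀ y ∈ List.range q.1, cd q.2.1 x y = cd q.2.2 x y :=
    h0.forall_mem_list.comp (Primrec.list_range.comp (Primrec.fst.comp Primrec.snd)) Primrec.id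
  exact h1.forall_mem_list.comp (Primrec.list_range.comp Primrec.fst) Primrec.id

/-- the neighbour lists of the vertices below `N`. -/
def tbl (nbrs : ℕ → List ℕ) (N : ℕ) : List (List ℕ) := (List.range N).map nbrs

theorem tbl_comp {nbrs : ℕ → List ℕ} (h : Computable nbrs) : Computable (tbl nbrs) := by
  have := Computable.nat_rec (f := fun n : ℕ => n) (g := fun _ : ℕ => ([] : List (List ℕ)))
    (h := fun (_ : ℕ) (p : ℕ × List (List ℕ)) => p.2 ++ [nbrs p.1]) Computable.id
    (Computable.const _)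
    (Computable.list_concat.comp (Computable.snd.comp Computable.snd)
      (h.comp (Computable.fst.comp Computable.snd))).to₂
  refine this.of_eq fun n => ?_
  induction n with
  | zero => rfl
  | succ n ih => simp only [tbl, List.range_succ, List.map_append] at ih ⊢; rw [ih]; rfl

theorem tbl_getD (nbrs : ℕ → List ℕ) {N x : ℕ} (hx : x < N) :
    (tbl nbrs N).getD x [] = nbrs x := by
  simp [tbl, List.getD_eq_getElem?_getD, hx]

/-- a bound for the neighbourhood of the vertices below `N`. -/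
def bnd (nbrs : ℕ → List ℕ) : ℕ → ℕ
  | 0 => 0
  | N + 1 => bnd nbrs N + 1 + Encodable.encode (nbrs N)

theorem bnd_comp {nbrs : ℕ → List ℕ} (h : Computable nbrs) : Computable (bnd nbrs) := by
  have := Computable.nat_rec (f := fun n : ℕ => n) (g := fun _ : ℕ => (0 : ℕ))
    (h := fun (_ : ℕ) (p : ℕ × ℕ) => p.2 + 1 + Encodable.encode (nbrs p.1)) Computable.id
    (Computable.const _)
    (Primrec.nat_add.to_comp.comp (Computable.succ.comp (Computable.snd.comp Computable.snd))
      (Computable.encode.comp (h.comp (Computable.fst.comp Computable.snd)))).to₂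
  refine this.of_eq fun n => ?_
  induction n with
  | zero => rfl
  | succ n ih => simp only [bnd] at ih ⊢; rw [ih]

theorem le_bnd (nbrs : ℕ → List ℕ) (N : ℕ) : N ≤ bnd nbrs N := by
  induction N with
  | zero => exact le_rfl
  | succ n ih => simp only [bnd]; omega

theorem lt_encode_of_mem {l : List ℕ} {y : ℕ} (h : y ∈ l) : y < Encodable.encode l := by
  induction l with
  | nil => cases h
  | cons a l ih =>
    rw [Encodable.encode_list_cons]
    rcases List.mem_cons.1 h with rfl | h
    · exact Nat.lt_succ_of_le (Nat.left_le_pair _ _)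
    · exact Nat.lt_succ_of_le ((ih h).le.trans (Nat.right_le_pair _ _))

theorem lt_bnd (nbrs : ℕ → List ℕ) {N x y : ℕ} (hx : x < N) (hy : y ∈ nbrs x) :
    y < bnd nbrs N := by
  induction N with
  | zero => cases hx
  | succ n ih =>
    simp only [bnd]
    rcases Nat.lt_succ_iff_lt_or_eq.1 hx with h | h
    · have := ih h; omega
    · subst h; have := lt_encode_of_mem hy; omega

theorem iter_mono (nbrs : ℕ → List ℕ) (n : ℕ) : Monotone fun k => (bnd nbrs)^[k] n := by
  refine monotone_nat_of_le_succ fun k => ?_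
  simp only [Function.iterate_succ_apply']
  exact le_bnd _ _

/-- size of the tentatively coloured region at stage `n`. -/
def stage (nbrs : ℕ → List ℕ) (Δ n : ℕ) : ℕ := (bnd nbrs)^[rad (Δ + 1) n + 1] n

theorem stage_comp {nbrs : ℕ → List ℕ} (h : Computable nbrs) (Δ : ℕ) :
    Computable (stage nbrs Δ) := by
  have hr : Primrec fun n => rad (Δ + 1) n + 1 := by
    unfold rad
    exact Primrec.succ.comp (Primrec.nat_add.comp (Primrec.nat_mul.comp
      (Primrec.nat_add.comp (Primrec.nat_mul.comp (Primrec.const _) Primrec.succ) Primrec.id)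
      (Primrec.const _)) (Primrec.const _))
  have := Computable.nat_rec (f := fun n : ℕ => rad (Δ + 1) n + 1) (g := fun n : ℕ => n)
    (h := fun (_ : ℕ) (p : ℕ × ℕ) => bnd nbrs p.2) hr.to_comp Computable.id
    ((bnd_comp h).comp (Computable.snd.comp Computable.snd)).to₂
  refine this.of_eq fun n => ?_
  unfold stage
  generalize rad (Δ + 1) n + 1 = m
  induction m with
  | zero => rfl
  | succ m ih => rw [Function.iterate_succ_apply', ← ih]

theorem le_stage (nbrs : ℕ → List ℕ) (Δ n : ℕ) : n ≤ stage nbrs Δ n :=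
  iter_mono nbrs n (Nat.zero_le _)

theorem stage_zero (nbrs : ℕ → List ℕ) (Δ : ℕ) : stage nbrs Δ 0 = 0 :=
  Function.iterate_fixed rfl _

/-- `k` codes a proper colouring of the graph below `N`. -/
def Good (G : SimpleGraph ℕ) (Δ N k : ℕ) : Prop :=
  ∀ x < N, ∀ y < N, G.Adj x y → (cd k x y = cd k y x ∧ cd k x y ≤ Δ) ∧
    ∀ z < N, G.Adj x z → y ≠ z → cd k x y ≠ cd k x z

theorem goodT_iff {G : SimpleGraph ℕ} {nbrs : ℕ → List ℕ} (hG : ∀ x y, G.Adj x y ↔ y ∈ nbrs x)
    (Δ N k : ℕ) : GoodT Δ (tbl nbrs N, N, k) ↔ Good G Δ N k := by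
  unfold GoodT Good
  constructor
  · intro h x hx y hy hxy
    have h1 := h x (List.mem_range.2 hx)
    simp only [tbl_getD nbrs hx] at h1
    have h2 := h1 y ((hG _ _).1 hxy)
    refine ⟨?_, fun z hz hxz hyz => ?_⟩
    · have h3 := (h2 y ((hG _ _).1 hxy)).resolve_left (fun h => h ⟨hy, hy⟩)
      exact ⟨h3.1, h3.2.1⟩
    · have h3 := (h2 z ((hG _ _).1 hxz)).resolve_left (fun h => h ⟨hy, hz⟩)
      exact h3.2.2.resolve_left hyz
  · intro h x hx
    have hx' := List.mem_range.1 hx
    simp only [tbl_getD nbrs hx']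
    intro y hy z hz
    by_cases h1 : y < N ∧ z < N
    · right
      have h2 := h x hx' y h1.1 ((hG _ _).2 hy)
      refine ⟨h2.1.1, h2.1.2, ?_⟩
      by_cases h3 : y = z
      · exact Or.inl h3
      · exact Or.inr (h2.2 z h1.2 ((hG _ _).2 hz) h3)
    · exact Or.inl h1

theorem exists_next {G : SimpleGraph ℕ} {nbrs : ℕ → List ℕ} (hG : ∀ x y, G.Adj x y ↔ y ∈ nbrs x)
    {Δ : ℕ} (hΔ : ∀ (x : ℕ) (s : Finset ℕ), (∀ y ∈ s, G.Adj x y) → s.card ≤ Δ) (n k N' : ℕ)
    (hn : n ≤ N') (hk : Good G Δ (stage nbrs Δ n) k) :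
    ∃ k', Good G Δ N' k' ∧ Agree (n, k, k') := by
  set N := stage nbrs Δ n with hN
  let c : ℕ → ℕ → Option (Fin (Δ + 1)) := fun u v =>
    if u < N ∧ v < N ∧ G.Adj u v then some (Fin.ofNat (Δ + 1) (cd k u v)) else none
  have hsome : ∀ u v a, c u v = some a → (u < N ∧ v < N ∧ G.Adj u v) ∧ a.val = cd k u v := by
    intro u v a h
    simp only [c] at h
    split_ifs at h with h1
    refine ⟨h1, ?_⟩
    rw [← Option.some.inj h]
    have := (hk u h1.1 v h1.2.1 h1.2.2).1.2
    simp only [Fin.ofNat]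
    exact Nat.mod_eq_of_lt (by omega)
  have hc : Proper G c := by
    refine ⟨?_, fun u v a h => (hsome u v a h).1.2.2, ?_⟩
    · intro u v
      simp only [c]
      by_cases h1 : u < N ∧ v < N ∧ G.Adj u v
      · rw [if_pos h1, if_pos ⟨h1.2.1, h1.1, h1.2.2.symm⟩, (hk u h1.1 v h1.2.1 h1.2.2).1.1]
      · rw [if_neg h1, if_neg (fun h => h1 ⟨h.2.1, h.1, h.2.2.symm⟩)]
    · intro u v w a h1 h2
      obtain ⟨p1, p2⟩ := hsome u v a h1
      obtain ⟨q1, q2⟩ := hsome u w a h2
      by_contra hne
      exact (hk u p1.1 v p1.2.1 p1.2.2).2 w q1.2.1 q1.2.2 hne (p2.symm.trans q2)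
  obtain ⟨c', p1, -, p3, p4⟩ := extend_many hc (fun u => (nbrs u).toFinset)
    (fun u v h => List.mem_toFinset.2 ((hG _ _).1 h))
    (fun u => by
      rw [Fintype.card_fin]
      exact Nat.lt_succ_of_le (hΔ u _ fun y hy => (hG _ _).2 (List.mem_toFinset.1 hy)))
    (Finset.range n) (fun j v => v < (bnd nbrs)^[j] n) (fun w hw => Finset.mem_range.1 hw)
    (fun j u v hv huv => by
      simp only [Function.iterate_succ_apply']
      exact lt_bnd nbrs hv ((hG _ _).1 huv.symm))
    (fun j hj x y hx hxy => by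
      rw [Fintype.card_fin, Finset.card_range] at hj
      have h1 : x < N := hx.trans_le (iter_mono nbrs n (by omega))
      have h2 : y < (bnd nbrs)^[j + 1] n := by
        rw [Function.iterate_succ_apply']
        exact lt_bnd nbrs hx ((hG _ _).1 hxy)
      have h3 : y < N := h2.trans_le (iter_mono nbrs n (by omega))
      simp only [c]
      rw [if_pos ⟨h1, h3, hxy⟩]
      simp)
    (Finset.range N' ×ˢ Finset.range N')
  obtain ⟨k', hk'⟩ := exists_code (fun x y => ((c' x y).map Fin.val).getD (cd k x y)) N'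
  have hval : ∀ x < N', ∀ y < N', G.Adj x y → ∃ a, c' x y = some a ∧ cd k' x y = a.val := by
    intro x hx y hy hxy
    have := p3 (x, y) (by simp [hx, hy]) hxy
    obtain ⟨a, ha⟩ := Option.ne_none_iff_exists'.1 this
    exact ⟨a, ha, by rw [hk' x hx y hy]; simp only at ha; rw [ha]; rfl⟩
  refine ⟨k', ?_, ?_⟩
  · intro x hx y hy hxy
    obtain ⟨a, ha, ha'⟩ := hval x hx y hy hxy
    refine ⟨⟨?_, ?_⟩, ?_⟩
    · obtain ⟨b, hb, hb'⟩ := hval y hy x hx hxy.symm
      rw [p1.symm, ha] at hb
      rw [ha', hb', Option.some.inj hb]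
    · rw [ha']; exact Nat.le_of_lt_succ a.2
    · intro z hz hxz hyz h
      obtain ⟨b, hb, hb'⟩ := hval x hx z hz hxz
      have : a = b := Fin.ext (by rw [← ha', ← hb', h])
      subst this
      exact hyz (p1.inj _ _ _ _ ha hb)
  · intro x hx y hy
    have hx' : x < n := List.mem_range.1 hx
    have hy' : y < n := List.mem_range.1 hy
    show cd k x y = cd k' x y
    rw [hk' x (by omega) y (by omega)]
    rw [p4 x (Finset.mem_range.2 hx') y]
    cases h : c x y with
    | none => rfl
    | some a => exact (hsome x y a h).2.symm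

theorem computable_vizing (G : SimpleGraph ℕ) (nbrs : ℕ → List ℕ) (hnb : Computable nbrs)
    (hG : ∀ x y : ℕ, G.Adj x y ↔ y ∈ nbrs x) (Δ : ℕ)
    (hΔ : ∀ (x : ℕ) (s : Finset ℕ), (∀ y ∈ s, G.Adj x y) → s.card ≤ Δ) :
    ∃ c : ℕ → ℕ → ℕ, Computable₂ c ∧
      (∀ x y : ℕ, G.Adj x y → c x y = c y x ∧ c x y ≤ Δ) ∧
      ∀ x y z : ℕ, G.Adj x y → G.Adj x z → y ≠ z → c x y ≠ c x z := by
  let P : ℕ × ℕ → ℕ → Prop := fun p k' =>
    ¬ Good G Δ (stage nbrs Δ p.1) p.2 ∨
      (Good G Δ (stage nbrs Δ (p.1 + 1)) k' ∧ Agree (p.1, p.2, k'))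
  have hex : ∀ p, ∃ k', P p k' := by
    intro p
    by_cases h : Good G Δ (stage nbrs Δ p.1) p.2
    · obtain ⟨k', hk'⟩ := exists_next hG hΔ p.1 p.2 (stage nbrs Δ (p.1 + 1))
        ((Nat.le_succ _).trans (le_stage _ _ _)) h
      exact ⟨k', Or.inr hk'⟩
    · exact ⟨0, Or.inl h⟩
  have hQ : PrimrecPred fun q : (List (List ℕ) × ℕ × ℕ) × (List (List ℕ) × ℕ × ℕ) × (ℕ × ℕ × ℕ) =>
      ¬ GoodT Δ q.1 ∨ (GoodT Δ q.2.1 ∧ Agree q.2.2) :=
    ((goodT_prim Δ).comp Primrec.fst).not.or
      (((goodT_prim Δ).comp (Primrec.fst.comp Primrec.snd)).and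
        (agree_prim.comp (Primrec.snd.comp Primrec.snd)))
  have hn : Computable fun r : (ℕ × ℕ) × ℕ => r.1.1 := Computable.fst.comp Computable.fst
  have hk : Computable fun r : (ℕ × ℕ) × ℕ => r.1.2 := Computable.snd.comp Computable.fst
  have hs0 : Computable fun r : (ℕ × ℕ) × ℕ => stage nbrs Δ r.1.1 := (stage_comp hnb Δ).comp hn
  have hs1 : Computable fun r : (ℕ × ℕ) × ℕ => stage nbrs Δ (r.1.1 + 1) :=
    (stage_comp hnb Δ).comp (Computable.succ.comp hn)
  have hf : Computable fun r : (ℕ × ℕ) × ℕ =>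
      ((tbl nbrs (stage nbrs Δ r.1.1), stage nbrs Δ r.1.1, r.1.2),
        (tbl nbrs (stage nbrs Δ (r.1.1 + 1)), stage nbrs Δ (r.1.1 + 1), r.2),
        (r.1.1, r.1.2, r.2)) :=
    (((tbl_comp hnb).comp hs0).pair (hs0.pair hk)).pair
      ((((tbl_comp hnb).comp hs1).pair (hs1.pair Computable.snd)).pair
        (hn.pair (hk.pair Computable.snd)))
  have hP : ComputablePred fun r : (ℕ × ℕ) × ℕ => P r.1 r.2 := by
    refine (Computable.computablePred (hQ.computablePred.decide.comp hf)).of_eq fun r => ?_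
    simp only [P, goodT_iff hG]
  have hstep : Computable fun p => Nat.find (hex p) := Computable.find hP hex
  let seq : ℕ → ℕ := fun n => Nat.rec (motive := fun _ => ℕ) 0 (fun m IH => Nat.find (hex (m, IH))) n
  have hseq : Computable seq :=
    Computable.nat_rec (f := fun n : ℕ => n) (g := fun _ : ℕ => (0 : ℕ))
      (h := fun (_ : ℕ) (p : ℕ × ℕ) => Nat.find (hex p)) Computable.id (Computable.const _)
      (hstep.comp Computable.snd).to₂
  have hsucc : ∀ n, P (n, seq n) (seq (n + 1)) := fun n => Nat.find_spec (hex (n, seq n))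
  have hgood : ∀ n, Good G Δ (stage nbrs Δ n) (seq n) := by
    intro n
    induction n with
    | zero => rw [stage_zero]; intro x hx; cases hx
    | succ n ih => exact ((hsucc n).resolve_left (fun h => h ih)).1
  have hagree : ∀ n x y, x < n → y < n → cd (seq n) x y = cd (seq (n + 1)) x y :=
    fun n x y hx hy => ((hsucc n).resolve_left (fun h => h (hgood n))).2 x (List.mem_range.2 hx) y
      (List.mem_range.2 hy)
  have hstab : ∀ x y m, x + y + 1 ≤ m → cd (seq (x + y + 1)) x y = cd (seq m) x y := by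
    intro x y m hm
    induction m, hm using Nat.le_induction with
    | base => rfl
    | succ m hm ih => rw [ih, hagree m x y (by omega) (by omega)]
  refine ⟨fun x y => cd (seq (x + y + 1)) x y, ?_, ?_, ?_⟩
  · have h1 : Primrec fun q : ℕ × ℕ × ℕ => cd q.1 q.2.1 q.2.2 :=
      cd_prim Primrec.fst (Primrec.fst.comp Primrec.snd) (Primrec.snd.comp Primrec.snd)
    have h2 : Computable fun p : ℕ × ℕ => (seq (p.1 + p.2 + 1), p) :=
      (hseq.comp (Computable.succ.comp
        (Primrec.nat_add.to_comp.comp Computable.fst Computable.snd))).pair Computable.id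
    exact h1.to_comp.comp h2
  · intro x y hxy
    have h1 := le_stage nbrs Δ (x + y + 1)
    have h2 := (hgood (x + y + 1) x (by omega) y (by omega) hxy).1
    refine ⟨?_, h2.2⟩
    show cd (seq (x + y + 1)) x y = cd (seq (y + x + 1)) y x
    rw [h2.1, Nat.add_comm y x]
  · intro x y z hxy hxz hyz
    have h1 := le_stage nbrs Δ (x + y + z + 1)
    show cd (seq (x + y + 1)) x y ≠ cd (seq (x + z + 1)) x z
    rw [hstab x y (x + y + z + 1) (by omega), hstab x z (x + y + z + 1) (by omega)]
    exact (hgood (x + y + z + 1) x (by omega) y (by omega) hxy).2 z (by omega) hxz hyz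

end Pool.Agent.Work.MP_20d0cc_lc
end
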